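import Pool.Agent.Hoch.Homotopy

/-!
# A Banach algebra of operator-like sequences
-/

open scoped TensorProduct Topology ZeroAtInfty
open Filter

namespace Pool.Agent.Hoch

section ell

/-- The Banach space `ℓ¹(ℕ)`. -/
abbrev E1 : Type := lp (fun _ : ℕ => ℂ) 1

/-- The unit vectors of `ℓ¹(ℕ)`. -/
noncomputable def ee (i : ℕ) : E1 := lp.single 1 i (1 : ℂ)

theorem norm_ee (i : ℕ) : ‖ee i‖ = 1 := by
  rw [ee, lp.norm_single (by norm_num)]
  simp

theorem E1_summable (x : E1) : Summable (fun i => ‖x i‖) := by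
  have := (lp.memℓp x).summable (by simp)
  simpa using this

theorem E1_norm (x : E1) : ‖x‖ = ∑' i, ‖x i‖ := by
  rw [lp.norm_eq_tsum_rpow (by simp)]
  simp

theorem E1_hasSum (x : E1) : HasSum (fun i => x i • ee i) x := by
  have h := lp.hasSum_single (p := 1) (by simp) x
  have e : (fun i => x i • ee i) = fun i => lp.single 1 i (x i) := by
    funext i
    rw [ee, ← lp.single_smul, smul_eq_mul, mul_one]
  rw [e]
  exact h

variable {V : Type} [NormedAddCommGroup V] [NormedSpace ℂ V]

theorem E1_ext {f g : E1 →L[ℂ] V} (h : ∀ i, f (ee i) = g (ee i)) : f = g := by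
  ext x
  have h1 := (f.hasSum (E1_hasSum x))
  have h2 := (g.hasSum (E1_hasSum x))
  simp only [map_smul, h] at h1
  simp only [map_smul] at h2
  exact h1.unique h2

theorem synth_summable [CompleteSpace V] (v : ℕ → V) (C : ℝ) (hv : ∀ i, ‖v i‖ ≤ C) (x : E1) :
    Summable (fun i => x i • v i) := by
  refine Summable.of_norm_bounded (g := fun i => ‖x i‖ * C) ((E1_summable x).mul_right C) ?_
  intro i
  rw [norm_smul]
  gcongr
  exact hv i

/-- The operator on `ℓ¹` with `ee i ↦ v i`, for a bounded sequence `v`. -/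
noncomputable def synth [CompleteSpace V] (v : ℕ → V) (C : ℝ) (hv : ∀ i, ‖v i‖ ≤ C) :
    E1 →L[ℂ] V :=
  LinearMap.mkContinuous (𝕜 := ℂ) (E := E1) (F := V)
    { toFun := fun x => ∑' i, x i • v i
      map_add' := by
        intro x y
        rw [← (synth_summable v C hv x).tsum_add (synth_summable v C hv y)]
        refine tsum_congr (fun i => ?_)
        rw [lp.coeFn_add, Pi.add_apply, add_smul]
      map_smul' := by
        intro c x
        rw [RingHom.id_apply, ← (synth_summable v C hv x).tsum_const_smul]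
        refine tsum_congr (fun i => ?_)
        rw [lp.coeFn_smul, Pi.smul_apply, smul_assoc] }
    C (by
      intro x
      have h1 : Summable (fun i => ‖x i‖ * C) := (E1_summable x).mul_right C
      have h2 : ∀ i, ‖x i • v i‖ ≤ ‖x i‖ * C := by
        intro i
        rw [norm_smul]
        gcongr
        exact hv i
      refine (tsum_of_norm_bounded h1.hasSum h2).trans ?_
      rw [tsum_mul_right, ← E1_norm, mul_comm])

theorem synth_ee [CompleteSpace V] (v : ℕ → V) (C : ℝ) (hv : ∀ i, ‖v i‖ ≤ C) (i : ℕ) :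
    synth v C hv (ee i) = v i := by
  change ∑' j, (ee i) j • v j = v i
  rw [tsum_eq_single i]
  · simp [ee]
  · intro j hj
    simp [ee, hj]

theorem norm_synth_le [CompleteSpace V] (v : ℕ → V) (C : ℝ) (hv : ∀ i, ‖v i‖ ≤ C) :
    ‖synth v C hv‖ ≤ C :=
  LinearMap.mkContinuous_norm_le _ ((norm_nonneg _).trans (hv 0)) _

end ell

/-- The index set of the algebra. -/
abbrev QQ : Type := ℕ ⊕ ℕ

/-- The underlying Banach space `c₀(QQ; ℓ¹)` of the algebra. -/
def Alg : Type := C₀(QQ, E1)

noncomputable instance : NormedAddCommGroup Alg := inferInstanceAs (NormedAddCommGroup C₀(QQ, E1))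
noncomputable instance : NormedSpace ℂ Alg := inferInstanceAs (NormedSpace ℂ C₀(QQ, E1))
instance : CompleteSpace Alg := inferInstanceAs (CompleteSpace C₀(QQ, E1))

instance : FunLike Alg QQ E1 := inferInstanceAs (FunLike C₀(QQ, E1) QQ E1)

theorem Alg.ext {T S : Alg} (h : ∀ q, T q = S q) : T = S := DFunLike.ext T S h

theorem Alg.add_apply (T S : Alg) (q : QQ) : (T + S) q = T q + S q := rfl
theorem Alg.smul_apply (c : ℂ) (T : Alg) (q : QQ) : (c • T) q = c • T q := rfl
theorem Alg.sub_apply (T S : Alg) (q : QQ) : (T - S) q = T q - S q := rfl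
theorem Alg.zero_apply (q : QQ) : (0 : Alg) q = 0 := rfl

theorem Alg.tendsto_zero (T : Alg) : Tendsto (fun q => T q) cofinite (𝓝 0) := by
  have := (show C₀(QQ, E1) from T).zero_at_infty'
  rw [cocompact_eq_cofinite] at this
  exact this

/-- Construct an element of the algebra from a function tending to zero. -/
noncomputable def Alg.mk (f : QQ → E1) (hf : Tendsto f cofinite (𝓝 0)) : Alg :=
  (⟨⟨f, continuous_of_discreteTopology⟩, by rw [cocompact_eq_cofinite]; exact hf⟩ : C₀(QQ, E1))

theorem Alg.mk_apply (f : QQ → E1) (hf : Tendsto f cofinite (𝓝 0)) (q : QQ) :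
    Alg.mk f hf q = f q := rfl

theorem Alg.norm_apply_le (T : Alg) (q : QQ) : ‖T q‖ ≤ ‖T‖ := by
  change ‖(ZeroAtInftyContinuousMap.toBCF (show C₀(QQ, E1) from T)) q‖ ≤
    ‖(show C₀(QQ, E1) from T)‖
  rw [← ZeroAtInftyContinuousMap.norm_toBCF_eq_norm]
  exact BoundedContinuousFunction.norm_coe_le_norm _ q

theorem Alg.norm_le (T : Alg) (C : ℝ) (hC : 0 ≤ C) (h : ∀ q, ‖T q‖ ≤ C) : ‖T‖ ≤ C := by
  change ‖(show C₀(QQ, E1) from T)‖ ≤ C
  rw [← ZeroAtInftyContinuousMap.norm_toBCF_eq_norm]
  exact (BoundedContinuousFunction.norm_le hC).2 h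

/-- The class of an index. -/
def kap (i : ℕ) : ℕ := (Nat.unpair i).1

theorem kap_pair (k m : ℕ) : kap (Nat.pair k m) = k := by simp [kap]

/-- The weights, `mu k = 1 / (k + 1)`. -/
noncomputable def mu (k : ℕ) : ℝ := 1 / (k + 1)

theorem mu_pos (k : ℕ) : 0 < mu k := by unfold mu; positivity

theorem mu_le_one (k : ℕ) : mu k ≤ 1 := by
  unfold mu
  rw [div_le_one (by positivity)]
  have : (0 : ℝ) ≤ k := Nat.cast_nonneg k
  linarith

theorem norm_mu (k : ℕ) : ‖(mu k : ℂ)‖ = mu k := by
  rw [Complex.norm_real, Real.norm_of_nonneg (mu_pos k).le]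

theorem mu_ne (k : ℕ) : (mu k : ℂ) ≠ 0 := by
  exact_mod_cast (mu_pos k).ne'

/-- `hh T i = (T (inl i) + mu (kap i) T (inr (kap i))) / 2`. -/
noncomputable def hh (T : Alg) (i : ℕ) : E1 :=
  (1 / 2 : ℂ) • (T (Sum.inl i) + (mu (kap i) : ℂ) • T (Sum.inr (kap i)))

theorem norm_hh_le (T : Alg) (i : ℕ) : ‖hh T i‖ ≤ ‖T‖ := by
  rw [hh, norm_smul]
  have h1 : ‖T (Sum.inl i) + (mu (kap i) : ℂ) • T (Sum.inr (kap i))‖ ≤ ‖T‖ + 1 * ‖T‖ := by
    refine (norm_add_le _ _).trans (add_le_add (T.norm_apply_le _) ?_)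
    rw [norm_smul, norm_mu]
    gcongr
    · exact mu_le_one _
    · exact T.norm_apply_le _
  have h2 : ‖(1 / 2 : ℂ)‖ = 1 / 2 := by norm_num
  rw [h2]
  linarith

/-- The operator on `ℓ¹` attached to an element of the algebra, with
`hat T (ee i) = (T (inl i) + mu (kap i) T (inr (kap i))) / 2`. -/
noncomputable def hat : Alg →L[ℂ] E1 →L[ℂ] E1 :=
  LinearMap.mkContinuous (𝕜 := ℂ) (E := Alg) (F := E1 →L[ℂ] E1)
    { toFun := fun T => synth (hh T) ‖T‖ (norm_hh_le T)
      map_add' := by
        intro T S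
        refine E1_ext (fun i => ?_)
        rw [add_apply, synth_ee, synth_ee, synth_ee]
        simp only [hh, Alg.add_apply, smul_add]
        abel
      map_smul' := by
        intro c T
        refine E1_ext (fun i => ?_)
        rw [RingHom.id_apply, smul_apply, synth_ee, synth_ee]
        simp only [hh, Alg.smul_apply, smul_add, smul_smul]
        congr 2
        · ring
        · ring }
    1 (fun T => (norm_synth_le (hh T) ‖T‖ (norm_hh_le T)).trans_eq (one_mul _).symm)

theorem hat_ee (T : Alg) (i : ℕ) : hat T (ee i) = hh T i := synth_ee (hh T) ‖T‖ (norm_hh_le T) i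

theorem norm_hat_le (T : Alg) : ‖hat T‖ ≤ ‖T‖ := norm_synth_le (hh T) ‖T‖ (norm_hh_le T)

/-- Apply an operator pointwise. -/
noncomputable def mapC (L : E1 →L[ℂ] E1) (S : Alg) : Alg :=
  Alg.mk (fun p => L (S p)) (by
    have := (L.continuous.tendsto 0).comp S.tendsto_zero
    rw [map_zero] at this
    exact this)

theorem mapC_apply (L : E1 →L[ℂ] E1) (S : Alg) (p : QQ) : mapC L S p = L (S p) := rfl

noncomputable instance : Mul Alg := ⟨fun T S => mapC (hat T) S⟩

theorem Alg.mul_apply (T S : Alg) (p : QQ) : (T * S) p = hat T (S p) := rfl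

theorem hh_mul (T S : Alg) (i : ℕ) : hh (T * S) i = hat T (hh S i) := by
  simp only [hh, Alg.mul_apply, map_smul, map_add]

theorem hat_mul (T S : Alg) : hat (T * S) = (hat T).comp (hat S) := by
  refine E1_ext (fun i => ?_)
  rw [ContinuousLinearMap.comp_apply, hat_ee, hat_ee, hh_mul]

noncomputable instance : NonUnitalNormedRing Alg :=
  { (inferInstance : NormedAddCommGroup Alg) with
    mul := (· * ·)
    left_distrib := fun T S R => Alg.ext (fun p => by
      simp only [Alg.mul_apply, Alg.add_apply, map_add])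
    right_distrib := fun T S R => Alg.ext (fun p => by
      simp only [Alg.mul_apply, Alg.add_apply, map_add, _root_.add_apply])
    zero_mul := fun T => Alg.ext (fun p => by
      simp only [Alg.mul_apply, Alg.zero_apply, map_zero, _root_.zero_apply])
    mul_zero := fun T => Alg.ext (fun p => by
      simp only [Alg.mul_apply, Alg.zero_apply, map_zero])
    mul_assoc := fun T S R => Alg.ext (fun p => by
      simp only [Alg.mul_apply, hat_mul, ContinuousLinearMap.comp_apply])
    norm_mul_le := fun T S => by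
      refine Alg.norm_le _ _ (by positivity) (fun p => ?_)
      rw [Alg.mul_apply]
      refine ((hat T).le_opNorm _).trans ?_
      gcongr
      · exact norm_hat_le T
      · exact S.norm_apply_le p }

instance : IsScalarTower ℂ Alg Alg := ⟨fun c T S => Alg.ext (fun p => by
  simp only [smul_eq_mul, Alg.mul_apply, Alg.smul_apply, map_smul, _root_.smul_apply])⟩

instance : SMulCommClass ℂ Alg Alg := ⟨fun c T S => Alg.ext (fun p => by
  simp only [smul_eq_mul, Alg.mul_apply, Alg.smul_apply, map_smul])⟩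

end Pool.Agent.Hoch
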