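import Pool.Agent.Hoch.Example2

/-!
# From the internal description of the Hochschild complex to the statement
-/

open scoped TensorProduct Topology

namespace Pool.Agent.Hoch

section bridge

variable {A : BanAlg}

/-- The left action of a bimodule, as a bounded bilinear map. -/
noncomputable def Bimod.lactL (X : Bimod A) : A.carrier →L[ℂ] X.V.carrier →L[ℂ] X.V.carrier :=
  LinearMap.mkContinuous₂
    (LinearMap.mk₂ ℂ (fun (a : A.carrier) (x : X.V.carrier) => X.l a x)
      X.l_add_left X.l_smul_left X.l_add_right X.l_smul_right)
    X.bound.choose (fun a x => (X.bound.choose_spec a x).1)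

/-- The right action of a bimodule, as a bounded bilinear map. -/
noncomputable def Bimod.ractL (X : Bimod A) : A.carrier →L[ℂ] X.V.carrier →L[ℂ] X.V.carrier :=
  LinearMap.mkContinuous₂
    (LinearMap.mk₂ ℂ (fun (a : A.carrier) (x : X.V.carrier) => X.r x a)
      (fun a b x => X.r_add_right x a b) (fun c a x => X.r_smul_right c x a)
      (fun a x y => X.r_add_left x y a) (fun c a x => X.r_smul_left c x a))
    X.bound.choose (fun a x => (X.bound.choose_spec a x).2)

theorem Bimod.lactL_apply (X : Bimod A) (a : A.carrier) (x : X.V.carrier) :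
    X.lactL a x = X.l a x := rfl

theorem Bimod.ractL_apply (X : Bimod A) (a : A.carrier) (x : X.V.carrier) :
    X.ractL a x = X.r x a := rfl

/-- The internal form of a bimodule. -/
noncomputable def Bimod.toBB (X : Bimod A) : BanachBimod A.carrier where
  ban := X.V
  acts :=
    { lact := X.lactL
      ract := X.ractL
      lact_mul := fun a b x => by
        simp only [Bimod.lactL_apply]
        exact X.l_mul a b x
      ract_mul := fun a b x => by
        simp only [Bimod.ractL_apply]
        exact X.r_mul x a b
      lact_ract := fun a b x => by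
        simp only [Bimod.ractL_apply, Bimod.lactL_apply]
        exact X.l_r a x b }

/-- The Hochschild differentials, constructed recursively, have the required values. -/
theorem Bimod.isHochschild_hochD (X : Bimod A) :
    X.IsHochschild (fun n => hochD X.toBB n) := by
  intro n x a
  exact hochD_pureT X.toBB x n a

/-- Elementary tensors span a dense subspace. -/
theorem elt_dense (V B : Ban) (n : ℕ) :
    (Submodule.span ℂ {t : (Ban.chain V B n).carrier | ∃ x a, t = Ban.elt V B x n a}
      ).topologicalClosure = ⊤ := by
  induction n with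
  | zero =>
    rw [Submodule.eq_top_iff']
    intro z
    refine Submodule.le_topologicalClosure _ (Submodule.subset_span ⟨z, Fin.elim0, rfl⟩)
  | succ n ih =>
    rw [Submodule.eq_top_iff'] at ih ⊢
    set M := (Submodule.span ℂ {t : (Ban.chain V B (n + 1)).carrier |
      ∃ x a, t = Ban.elt V B x (n + 1) a}).topologicalClosure with hM
    have hMc : IsClosed (M : Set (Ban.chain V B (n + 1)).carrier) :=
      Submodule.isClosed_topologicalClosure _
    have h1 : ∀ (c : (Ban.chain V B n).carrier) (b : B.carrier),
        (tmul (X := (Ban.chain V B n).carrier) (Y := B.carrier) c b :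
          (Ban.chain V B (n + 1)).carrier) ∈ M := by
      intro c b
      let T : (Ban.chain V B n).carrier →L[ℂ] (Ban.chain V B (n + 1)).carrier :=
        (tmul (X := (Ban.chain V B n).carrier) (Y := B.carrier)).flip b
      have hle : (Submodule.span ℂ {t : (Ban.chain V B n).carrier |
          ∃ x a, t = Ban.elt V B x n a}).topologicalClosure ≤
          M.comap (T : (Ban.chain V B n).carrier →ₗ[ℂ] (Ban.chain V B (n + 1)).carrier) := by
        refine Submodule.topologicalClosure_minimal _ (Submodule.span_le.2 ?_) ?_
        · rintro _ ⟨x, a, rfl⟩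
          refine Submodule.le_topologicalClosure _ (Submodule.subset_span
            ⟨x, Fin.snoc (α := fun _ => B.carrier) a b, ?_⟩)
          change tmul (X := (Ban.chain V B n).carrier) (Y := B.carrier) (Ban.elt V B x n a) b =
            Ban.tm (Ban.elt V B x n (Fin.init (Fin.snoc (α := fun _ => B.carrier) a b)))
              (Fin.snoc (α := fun _ => B.carrier) a b (Fin.last n))
          rw [Fin.init_snoc, Fin.snoc_last]
          exact tmul_eq_tm (X := (Ban.chain V B n).carrier) (Y := B.carrier) _ _
        · exact hMc.preimage T.continuous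
      exact hle (ih c)
    intro z
    have hd := dense_span (X := (Ban.chain V B n).carrier) (Y := B.carrier)
    rw [Submodule.eq_top_iff'] at hd
    have hle : (Submodule.span ℂ {t : PT (Ban.chain V B n).carrier B.carrier |
        ∃ x y, t = tmul x y}).topologicalClosure ≤ M := by
      refine Submodule.topologicalClosure_minimal _ (Submodule.span_le.2 ?_) hMc
      rintro _ ⟨x, y, rfl⟩
      exact h1 x y
    exact hle (hd z)

/-- The Hochschild differentials are unique. -/
theorem Bimod.IsHochschild.unique (X : Bimod A)
    {d d' : ∀ n, Ban.Hom (X.C (n + 1)) (X.C n)} (h : X.IsHochschild d) (h' : X.IsHochschild d') :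
    d = d' := by
  funext n
  refine ContinuousLinearMap.ext_on
    (s := {t : (X.C (n + 1)).carrier | ∃ x a, t = X.elt (n + 1) x a}) ?_ ?_
  · have := elt_dense X.V A.ban (n + 1)
    rw [← Submodule.dense_iff_topologicalClosure_eq_top] at this
    exact this
  · rintro _ ⟨x, a, rfl⟩
    exact (h n x a).trans (h' n x a).symm

end bridge

/-- The algebra. -/
noncomputable abbrev AA : BanAlg := ⟨Alg⟩

theorem AA_higherVanishing : AA.HigherVanishing := by
  intro X
  refine ⟨fun n => hochD X.toBB n, X.isHochschild_hochD, fun n z => ⟨fun hz => ?_, ?_⟩⟩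
  · exact Alg_exact X.toBB n z hz
  · rintro ⟨w, rfl⟩
    exact hochD_hochD X.toBB n w

/-- The module `XX`, as a `Bimod`. -/
noncomputable def X0 : Bimod AA where
  V := ⟨DE⟩
  l := fun _ _ => 0
  r := fun x a => x.comp (hat a)
  l_add_left := by intros; simp
  l_add_right := by intros; simp
  l_smul_left := by intros; simp
  l_smul_right := by intros; simp
  r_add_left := by intros; simp
  r_add_right := by intros; simp
  r_smul_left := by intros; simp
  r_smul_right := by intros; simp
  l_mul := by intros; simp
  r_mul := by
    intro x a b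
    rw [hat_mul]
    rfl
  l_r := by intros; simp
  bound := ⟨1, fun a x => by
    constructor
    · rw [norm_zero]; positivity
    · calc ‖(show DE from x).comp (hat a)‖ ≤ ‖(show DE from x)‖ * ‖hat a‖ :=
          ContinuousLinearMap.opNorm_comp_le _ _
        _ ≤ ‖(show DE from x)‖ * ‖a‖ := by gcongr; exact norm_hat_le a
        _ = 1 * ‖a‖ * ‖(show DE from x)‖ := by ring⟩

theorem AA_not_amenable : ¬ AA.IsAmenable := by
  intro h
  obtain ⟨d, hd, -, hcl⟩ := h X0
  have key : d 0 = hochD XX 0 := by
    refine chain_ext (X := XX) (n := 0) (fun g T => ?_)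
    have e : ct XX 0 g T = X0.elt 1 g (fun _ => T) :=
      tmul_eq_tm (X := DE) (Y := Alg) g T
    have h1 := hd 0 g (fun _ => T)
    rw [Fin.sum_univ_zero, add_zero] at h1
    have h2 : hochD XX 0 (ct XX 0 g T) = (chains XX 0).ract T g +
      (-1 : ℂ) ^ (0 + 1) • (chains XX 0).lact T g := by
      rw [hochD_ct, bPrime_zero_ct]
    exact ((congrArg (fun z => (d 0) z) e).trans h1).trans h2.symm
  rw [key] at hcl
  exact not_closed hcl

end Pool.Agent.Hoch
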