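import Pool.Agent.Hoch.PTensor

/-!
# Hochschild chain complexes of Banach algebras
-/

open scoped TensorProduct

namespace Pool.Agent.Hoch

section functor

variable {X X' Y Y' V : Type} [NormedAddCommGroup X] [NormedSpace ℂ X] [CompleteSpace X]
  [NormedAddCommGroup X'] [NormedSpace ℂ X'] [CompleteSpace X']
  [NormedAddCommGroup Y] [NormedSpace ℂ Y] [CompleteSpace Y]
  [NormedAddCommGroup Y'] [NormedSpace ℂ Y'] [CompleteSpace Y']
  [NormedAddCommGroup V] [NormedSpace ℂ V] [CompleteSpace V]

theorem lift_add (B B' : X →L[ℂ] Y →L[ℂ] V) : lift (B + B') = lift B + lift B' := by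
  refine clm_ext (V := V) (fun x y => ?_)
  simp

theorem lift_smul (c : ℂ) (B : X →L[ℂ] Y →L[ℂ] V) : lift (c • B) = c • lift B := by
  refine clm_ext (V := V) (fun x y => ?_)
  simp

variable (X Y V) in
/-- `lift`, as a linear map. -/
noncomputable def liftₗ : (X →L[ℂ] Y →L[ℂ] V) →ₗ[ℂ] (PT X Y →L[ℂ] V) where
  toFun B := lift B
  map_add' := lift_add
  map_smul' := lift_smul

variable (X Y V) in
/-- `lift`, as a continuous linear map. -/
noncomputable def liftL : (X →L[ℂ] Y →L[ℂ] V) →L[ℂ] (PT X Y →L[ℂ] V) :=
  LinearMap.mkContinuous (𝕜 := ℂ) (E := X →L[ℂ] Y →L[ℂ] V) (F := PT X Y →L[ℂ] V)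
    (liftₗ X Y V) 1 (fun B => (norm_lift_le B).trans_eq (one_mul _).symm)

@[simp]
theorem liftL_apply (B : X →L[ℂ] Y →L[ℂ] V) : liftL X Y V B = lift B := rfl

variable (X X' Y) in
/-- `f ↦ f ⊗ id`. -/
noncomputable def mapL : (X →L[ℂ] X') →L[ℂ] (PT X Y →L[ℂ] PT X' Y) :=
  (liftL X Y (PT X' Y)).comp (ContinuousLinearMap.compL ℂ X X' (Y →L[ℂ] PT X' Y) tmul)

@[simp]
theorem mapL_tmul (f : X →L[ℂ] X') (x : X) (y : Y) :
    mapL X X' Y f (tmul x y) = tmul (f x) y := by
  simp [mapL]

variable (X Y Y') in
/-- `g ↦ id ⊗ g`. -/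
noncomputable def mapR : (Y →L[ℂ] Y') →L[ℂ] (PT X Y →L[ℂ] PT X Y') :=
  (liftL X Y (PT X Y')).comp
    (((ContinuousLinearMap.flipₗᵢ ℂ Y X (PT X Y')).toContinuousLinearEquiv.toContinuousLinearMap).comp
      (ContinuousLinearMap.compL ℂ Y Y' (X →L[ℂ] PT X Y') tmul.flip))

@[simp]
theorem mapR_tmul (g : Y →L[ℂ] Y') (x : X) (y : Y) :
    mapR X Y Y' g (tmul x y) = tmul x (g y) := by
  simp [mapR]

end functor

/-- A pair of commuting jointly continuous actions of the Banach algebra `A` on the Banach space
`V`; `lact a x` is `a · x` and `ract a x` is `x · a`. -/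
structure Acts (A : Type) [NonUnitalNormedRing A] [NormedSpace ℂ A] (V : Ban) where
  /-- the left action, `lact a x = a · x` -/
  lact : A →L[ℂ] V.carrier →L[ℂ] V.carrier
  /-- the right action, `ract a x = x · a` -/
  ract : A →L[ℂ] V.carrier →L[ℂ] V.carrier
  lact_mul : ∀ a b x, lact (a * b) x = lact a (lact b x)
  ract_mul : ∀ a b x, ract (a * b) x = ract b (ract a x)
  lact_ract : ∀ a b x, lact a (ract b x) = ract b (lact a x)

/-- A Banach bimodule over the Banach algebra `A`. -/
structure BanachBimod (A : Type) [NonUnitalNormedRing A] [NormedSpace ℂ A] where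
  /-- the underlying Banach space -/
  ban : Ban
  /-- the actions -/
  acts : Acts A ban

namespace BanachBimod

variable {A : Type} [NonUnitalNormedRing A] [NormedSpace ℂ A] (X : BanachBimod A)

/-- the underlying space -/
abbrev carrier : Type := X.ban.carrier

/-- the left action -/
abbrev lact : A →L[ℂ] X.carrier →L[ℂ] X.carrier := X.acts.lact

/-- the right action -/
abbrev ract : A →L[ℂ] X.carrier →L[ℂ] X.carrier := X.acts.ract

theorem lact_mul (a b : A) (x : X.carrier) : X.lact (a * b) x = X.lact a (X.lact b x) :=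
  X.acts.lact_mul a b x

theorem ract_mul (a b : A) (x : X.carrier) : X.ract (a * b) x = X.ract b (X.ract a x) :=
  X.acts.ract_mul a b x

theorem lact_ract (a b : A) (x : X.carrier) : X.lact a (X.ract b x) = X.ract b (X.lact a x) :=
  X.acts.lact_ract a b x

end BanachBimod

variable {A : Type} [NonUnitalNormedRing A] [NormedSpace ℂ A] [IsScalarTower ℂ A A]
  [SMulCommClass ℂ A A] [CompleteSpace A]

/-- The actions on `V ⊗ A` with `a · (x ⊗ b) = (a · x) ⊗ b` and `(x ⊗ b) · a = x ⊗ (b a)`. -/
noncomputable def Acts.tens {V : Ban} (M : Acts A V) : Acts A (Ban.pt V ⟨A⟩) where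
  lact := (mapL V.carrier V.carrier A).comp M.lact
  ract := (mapR V.carrier A A).comp (ContinuousLinearMap.mul ℂ A).flip
  lact_mul a b x := by
    have : (mapL V.carrier V.carrier A) (M.lact (a * b)) =
      ((mapL V.carrier V.carrier A) (M.lact a)).comp ((mapL V.carrier V.carrier A) (M.lact b)) := by
      refine clm_ext (fun x y => ?_)
      simp [M.lact_mul]
    exact congrArg (fun f => f x) this
  ract_mul a b x := by
    have : (mapR V.carrier A A) ((ContinuousLinearMap.mul ℂ A).flip (a * b)) =
      ((mapR V.carrier A A) ((ContinuousLinearMap.mul ℂ A).flip b)).comp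
        ((mapR V.carrier A A) ((ContinuousLinearMap.mul ℂ A).flip a)) := by
      refine clm_ext (fun x y => ?_)
      simp [mul_assoc]
    exact congrArg (fun f => f x) this
  lact_ract a b x := by
    have : ((mapL V.carrier V.carrier A) (M.lact a)).comp
        ((mapR V.carrier A A) ((ContinuousLinearMap.mul ℂ A).flip b)) =
      ((mapR V.carrier A A) ((ContinuousLinearMap.mul ℂ A).flip b)).comp
        ((mapL V.carrier V.carrier A) (M.lact a)) := by
      refine clm_ext (fun x y => ?_)
      simp
    exact congrArg (fun f => f x) this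

/-- The actions on the chain spaces. -/
noncomputable def chainActs (X : BanachBimod A) : ∀ n, Acts A (Ban.chain X.ban ⟨A⟩ n)
  | 0 => X.acts
  | n + 1 => (chainActs X n).tens

/-- The chain spaces: `chains X n` is `X ⊗ A ⊗ ⋯ ⊗ A` with `n` factors `A` (completed projective
tensor products), with its outer bimodule structure: `A` acts on the left through `X` and on the
right through the last factor. -/
noncomputable def chains (X : BanachBimod A) (n : ℕ) : BanachBimod A :=
  ⟨Ban.chain X.ban ⟨A⟩ n, chainActs X n⟩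

section chainAPI

variable (X : BanachBimod A) (n : ℕ) {V : Type} [NormedAddCommGroup V] [NormedSpace ℂ V]

/-- The elementary tensor `c ⊗ a` in `Cₙ₊₁ = Cₙ ⊗ A`. -/
noncomputable def ct : (chains X n).carrier →L[ℂ] A →L[ℂ] (chains X (n + 1)).carrier :=
  tmul (X := (chains X n).carrier) (Y := A)

/-- The continuous linear map on `Cₙ₊₁ = Cₙ ⊗ A` determined by a bounded bilinear map on
`Cₙ × A`. -/
noncomputable def clift [CompleteSpace V] (B : (chains X n).carrier →L[ℂ] A →L[ℂ] V) :
    (chains X (n + 1)).carrier →L[ℂ] V :=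
  lift (X := (chains X n).carrier) (Y := A) B

variable {X n}

@[simp]
theorem clift_ct [CompleteSpace V] (B : (chains X n).carrier →L[ℂ] A →L[ℂ] V)
    (c : (chains X n).carrier) (a : A) : clift X n B (ct X n c a) = B c a :=
  lift_tmul (X := (chains X n).carrier) (Y := A) B c a

theorem chain_ext {f g : (chains X (n + 1)).carrier →L[ℂ] V}
    (h : ∀ c a, f (ct X n c a) = g (ct X n c a)) : f = g :=
  clm_ext (X := (chains X n).carrier) (Y := A) h

@[simp]
theorem lact_ct (a : A) (c : (chains X n).carrier) (b : A) :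
    (chains X (n + 1)).lact a (ct X n c b) = ct X n ((chains X n).lact a c) b :=
  mapL_tmul (X := (chains X n).carrier) (X' := (chains X n).carrier) (Y := A) _ _ _

@[simp]
theorem ract_ct (a : A) (c : (chains X n).carrier) (b : A) :
    (chains X (n + 1)).ract a (ct X n c b) = ct X n c (b * a) :=
  mapR_tmul (X := (chains X n).carrier) (Y := A) (Y' := A) _ _ _

end chainAPI

/-- The part of the Hochschild differential which does not involve the left action on `X`:
`x ⊗ a₁ ⊗ ⋯ ⊗ aₙ₊₁ ↦ x a₁ ⊗ a₂ ⊗ ⋯ + ∑ (-1)^i x ⊗ ⋯ ⊗ aᵢ aᵢ₊₁ ⊗ ⋯`, defined by recursion: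
`b'₀ (x ⊗ a) = x a` and `b'ₙ₊₁ (c ⊗ a) = b'ₙ c ⊗ a + (-1)^(n+1) c · a`. -/
noncomputable def bPrime (X : BanachBimod A) :
    ∀ n, (chains X (n + 1)).carrier →L[ℂ] (chains X n).carrier
  | 0 => clift X 0 (chains X 0).ract.flip
  | n + 1 => clift X (n + 1) ((ct X n).comp (bPrime X n) +
      (-1 : ℂ) ^ (n + 1) • ((chains X (n + 1)).ract.flip))

/-- The Hochschild differential `dₙ : Cₙ₊₁(A, X) → Cₙ(A, X)`,
`x ⊗ a₁ ⊗ ⋯ ⊗ aₙ₊₁ ↦ x a₁ ⊗ a₂ ⊗ ⋯ + ∑_{i=1}^n (-1)^i x ⊗ ⋯ ⊗ aᵢ aᵢ₊₁ ⊗ ⋯
  + (-1)^(n+1) aₙ₊₁ x ⊗ a₁ ⊗ ⋯ ⊗ aₙ`. -/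
noncomputable def hochD (X : BanachBimod A) (n : ℕ) :
    (chains X (n + 1)).carrier →L[ℂ] (chains X n).carrier :=
  bPrime X n + (-1 : ℂ) ^ (n + 1) • clift X n (chains X n).lact.flip

section identities

variable (X : BanachBimod A)

theorem bPrime_zero_ct (c : (chains X 0).carrier) (a : A) :
    bPrime X 0 (ct X 0 c a) = (chains X 0).ract a c := by
  simp [bPrime]

theorem bPrime_succ_ct (n : ℕ) (c : (chains X (n + 1)).carrier) (a : A) :
    bPrime X (n + 1) (ct X (n + 1) c a) =
      ct X n (bPrime X n c) a + (-1 : ℂ) ^ (n + 1) • (chains X (n + 1)).ract a c := by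
  simp [bPrime]

theorem hochD_ct (n : ℕ) (c : (chains X n).carrier) (a : A) :
    hochD X n (ct X n c a) =
      bPrime X n (ct X n c a) + (-1 : ℂ) ^ (n + 1) • (chains X n).lact a c := by
  simp [hochD]

theorem bPrime_lact (n : ℕ) (a : A) (z : (chains X (n + 1)).carrier) :
    bPrime X n ((chains X (n + 1)).lact a z) = (chains X n).lact a (bPrime X n z) := by
  have key : ∀ n, (bPrime X n).comp ((chains X (n + 1)).lact a) =
      ((chains X n).lact a).comp (bPrime X n) := by
    intro n
    induction n with
    | zero =>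
      refine chain_ext (fun c b => ?_)
      simp [bPrime_zero_ct, (chains X 0).lact_ract]
    | succ n ih =>
      refine chain_ext (fun c b => ?_)
      have h := congrArg (fun f => f c) ih
      simp only [ContinuousLinearMap.comp_apply] at h
      simp [bPrime_succ_ct, h, (chains X (n + 1)).lact_ract]
  exact congrArg (fun f => f z) (key n)

theorem bPrime_ract (n : ℕ) (a : A) (z : (chains X (n + 1)).carrier) :
    bPrime X n ((chains X (n + 1)).ract a z) = (chains X n).ract a (bPrime X n z) := by
  have key : (bPrime X n).comp ((chains X (n + 1)).ract a) =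
      ((chains X n).ract a).comp (bPrime X n) := by
    refine chain_ext (fun c b => ?_)
    cases n with
    | zero => simp [bPrime_zero_ct, (chains X 0).ract_mul]
    | succ n => simp [bPrime_succ_ct, (chains X (n + 1)).ract_mul]
  exact congrArg (fun f => f z) key

theorem bPrime_bPrime (n : ℕ) (z : (chains X (n + 2)).carrier) :
    bPrime X n (bPrime X (n + 1) z) = 0 := by
  have key : ∀ n, (bPrime X n).comp (bPrime X (n + 1)) = 0 := by
    intro n
    induction n with
    | zero =>
      refine chain_ext (fun c b => ?_)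
      simp [bPrime_succ_ct, bPrime_zero_ct, bPrime_ract]
    | succ n ih =>
      refine chain_ext (fun c b => ?_)
      have h := congrArg (fun f => f c) ih
      simp only [ContinuousLinearMap.comp_apply, zero_apply] at h
      simp only [ContinuousLinearMap.comp_apply, bPrime_succ_ct X (n + 1), map_add, map_smul,
        bPrime_succ_ct X n, bPrime_ract, h, map_zero, zero_apply, zero_add]
      rw [← add_smul, pow_succ (-1 : ℂ) (n + 1)]
      simp
  exact congrArg (fun f => f z) (key n)

/-- The Hochschild differentials form a complex. -/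
theorem hochD_hochD (n : ℕ) (z : (chains X (n + 2)).carrier) :
    hochD X n (hochD X (n + 1) z) = 0 := by
  have key : (hochD X n).comp (hochD X (n + 1)) = 0 := by
    refine chain_ext (fun c b => ?_)
    have h1 : bPrime X n (bPrime X (n + 1) (ct X (n + 1) c b)) = 0 := bPrime_bPrime X n _
    have h2 : ∀ c : (chains X (n + 1)).carrier,
        clift X n (chains X n).lact.flip ((chains X (n + 1)).ract b c) =
        clift X n (chains X n).lact.flip ((chains X (n + 1)).lact b c) := by
      intro c
      have : (clift X n (chains X n).lact.flip).comp ((chains X (n + 1)).ract b) =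
        (clift X n (chains X n).lact.flip).comp ((chains X (n + 1)).lact b) := by
        refine chain_ext (fun c' e => ?_)
        simp [(chains X n).lact_mul]
      exact congrArg (fun f => f c) this
    have h3 : clift X n (chains X n).lact.flip (bPrime X (n + 1) (ct X (n + 1) c b)) =
        (chains X n).lact b (bPrime X n c) +
        (-1 : ℂ) ^ (n + 1) • clift X n (chains X n).lact.flip ((chains X (n + 1)).lact b c) := by
      rw [bPrime_succ_ct, map_add, map_smul, h2]
      simp
    have h4 : hochD X n ((chains X (n + 1)).lact b c) = (chains X n).lact b (bPrime X n c) +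
        (-1 : ℂ) ^ (n + 1) • clift X n (chains X n).lact.flip ((chains X (n + 1)).lact b c) := by
      simp [hochD, bPrime_lact]
    have h5 : hochD X n (bPrime X (n + 1) (ct X (n + 1) c b)) = (-1 : ℂ) ^ (n + 1) •
        ((chains X n).lact b (bPrime X n c) +
        (-1 : ℂ) ^ (n + 1) • clift X n (chains X n).lact.flip ((chains X (n + 1)).lact b c)) := by
      rw [← h3]
      simp [hochD, h1]
    rw [ContinuousLinearMap.comp_apply, hochD_ct X (n + 1), map_add, map_smul, h4, h5,
      pow_succ (-1 : ℂ) (n + 1), ← add_smul]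
    simp
  exact congrArg (fun f => f z) key

end identities

section explicit

/-- The elementary tensor `x ⊗ a₀ ⊗ ⋯ ⊗ aₙ₋₁` in `Cₙ = X ⊗ A ⊗ ⋯ ⊗ A`. -/
noncomputable def pureT (X : BanachBimod A) (x : X.carrier) (n : ℕ) (a : Fin n → A) :
    (chains X n).carrier := Ban.elt X.ban ⟨A⟩ x n a

theorem pureT_succ (X : BanachBimod A) (x : X.carrier) (n : ℕ) (a : Fin (n + 1) → A) :
    pureT X x (n + 1) a = ct X n (pureT X x n (Fin.init a)) (a (Fin.last n)) :=
  (tmul_eq_tm (X := (chains X n).carrier) (Y := A) _ _).symm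

theorem bPrime_pureT (X : BanachBimod A) (x : X.carrier) (n : ℕ) (a : Fin (n + 1) → A) :
    bPrime X n (pureT X x (n + 1) a) = pureT X (X.ract (a 0) x) n (Fin.tail a) +
      ∑ i : Fin n, (-1 : ℂ) ^ ((i : ℕ) + 1) •
        pureT X x n (Fin.contractNth i.castSucc (fun b c => b * c) a) := by
  induction n with
  | zero =>
    rw [Fin.sum_univ_zero, add_zero]
    exact bPrime_zero_ct X _ _
  | succ n ih =>
    have h1 : pureT X x (n + 2) a = ct X (n + 1) (pureT X x (n + 1) (Fin.init a))
      (a (Fin.last (n + 1))) := rfl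
    rw [h1, bPrime_succ_ct, ih (Fin.init a), map_add, map_sum, Fin.sum_univ_castSucc]
    simp only [add_apply, sum_apply, map_smul, smul_apply]
    have h2 : ct X n (pureT X (X.ract (Fin.init a 0) x) n (Fin.tail (Fin.init a)))
        (a (Fin.last (n + 1))) = pureT X (X.ract (a 0) x) (n + 1) (Fin.tail a) := rfl
    have h3 : ∀ i : Fin n, ct X n (pureT X x n (Fin.contractNth i.castSucc (fun b c => b * c)
        (Fin.init a))) (a (Fin.last (n + 1))) =
        pureT X x (n + 1) (Fin.contractNth i.castSucc.castSucc (fun b c => b * c) a) := by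
      intro i
      have e1 : Fin.init (Fin.contractNth i.castSucc.castSucc (fun b c => b * c) a) =
          Fin.contractNth i.castSucc (fun b c => b * c) (Fin.init a) := by
        funext k
        simp only [Fin.init, Fin.contractNth, Fin.val_castSucc]
        rfl
      have e2 : Fin.contractNth i.castSucc.castSucc (fun b c => b * c) a (Fin.last n) =
          a (Fin.last (n + 1)) := by
        have := i.isLt
        simp only [Fin.contractNth, Fin.val_castSucc, Fin.val_last]
        rw [if_neg (by omega), if_neg (by omega)]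
        rfl
      rw [← e1, ← e2]
      rfl
    have h4 : (chains X (n + 1)).ract (a (Fin.last (n + 1))) (pureT X x (n + 1) (Fin.init a)) =
        pureT X x (n + 1) (Fin.contractNth (Fin.last n).castSucc (fun b c => b * c) a) := by
      have e0 : pureT X x (n + 1) (Fin.init a) =
        ct X n (pureT X x n (Fin.init (Fin.init a))) (Fin.init a (Fin.last n)) := rfl
      have e1 : Fin.init (Fin.contractNth (Fin.last n).castSucc (fun b c => b * c) a) =
          Fin.init (Fin.init a) := by
        funext k
        have := k.isLt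
        simp only [Fin.init, Fin.contractNth, Fin.val_castSucc, Fin.val_last]
        rw [if_pos (by omega)]
      have e2 : Fin.contractNth (Fin.last n).castSucc (fun b c => b * c) a (Fin.last n) =
          Fin.init a (Fin.last n) * a (Fin.last (n + 1)) := by
        simp only [Fin.contractNth, Fin.val_castSucc, Fin.val_last]
        rw [if_neg (by omega), if_pos trivial]
        rfl
      rw [e0, ract_ct, ← e1, ← e2]
      rfl
    rw [h2, h4]
    simp only [h3]
    rw [Fin.val_last, add_assoc]
    rfl

/-- The Hochschild differential on elementary tensors: the explicit formula. -/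
theorem hochD_pureT (X : BanachBimod A) (x : X.carrier) (n : ℕ) (a : Fin (n + 1) → A) :
    hochD X n (pureT X x (n + 1) a) = pureT X (X.ract (a 0) x) n (Fin.tail a) +
      ∑ i : Fin n, (-1 : ℂ) ^ ((i : ℕ) + 1) •
        pureT X x n (Fin.contractNth i.castSucc (fun b c => b * c) a) +
      (-1 : ℂ) ^ (n + 1) • pureT X (X.lact (a (Fin.last n)) x) n (Fin.init a) := by
  have h1 : ∀ n (b : A) (a : Fin n → A), (chains X n).lact b (pureT X x n a) =
      pureT X (X.lact b x) n a := by
    intro n
    induction n with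
    | zero => intro b a; rfl
    | succ n ih =>
      intro b a
      change (chains X (n + 1)).lact b (ct X n (pureT X x n (Fin.init a)) (a (Fin.last n))) = _
      rw [lact_ct, ih]
      rfl
  rw [← bPrime_pureT, ← h1]
  exact hochD_ct X n _ _

end explicit

end Pool.Agent.Hoch
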