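import Mathlib

/-!
# Hochschild homology of Banach algebras: definitions
-/

open scoped TensorProduct

namespace Pool.Agent.Hoch

/-- A complex Banach space. -/
structure Ban where
  /-- the underlying space -/
  carrier : Type
  [grp : NormedAddCommGroup carrier]
  [spc : NormedSpace ℂ carrier]
  [cpl : CompleteSpace carrier]

attribute [instance] Ban.grp Ban.spc Ban.cpl

/-- The space of bounded linear maps between two Banach spaces. -/
abbrev Ban.Hom (V W : Ban) : Type := V.carrier →L[ℂ] W.carrier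

/-- The two-element family `(V, W)`, indexed by `Bool`. -/
def Ban.pair (V W : Ban) : Bool → Ban
  | false => V
  | true => W

/-- The completed projective tensor product of the Banach spaces `V` and `W`: the completion of
the algebraic tensor product of `V` and `W`, endowed with the projective norm
`‖t‖ = inf { ∑ ‖x_j‖ ‖y_j‖ : t = ∑ x_j ⊗ y_j }`, which is Mathlib's norm on
`PiTensorProduct`. -/
noncomputable def Ban.pt (V W : Ban) : Ban :=
  ⟨UniformSpace.Completion (⨂[ℂ] b : Bool, (Ban.pair V W b).carrier)⟩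

/-- The pair `(x, y)` as a point of the product of the family `(V, W)`. -/
def Ban.pairPt {V W : Ban} (x : V.carrier) (y : W.carrier) : ∀ b, (Ban.pair V W b).carrier
  | false => x
  | true => y

/-- The elementary tensor `x ⊗ y`, as an element of the completed tensor product. -/
noncomputable def Ban.tm {V W : Ban} (x : V.carrier) (y : W.carrier) : (Ban.pt V W).carrier :=
  ((PiTensorProduct.tprod ℂ (Ban.pairPt x y) : ⨂[ℂ] b : Bool, (Ban.pair V W b).carrier) :
    UniformSpace.Completion (⨂[ℂ] b : Bool, (Ban.pair V W b).carrier))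

/-- The completed projective tensor product `V ⊗ B ⊗ ⋯ ⊗ B` with `n` factors `B`. -/
noncomputable def Ban.chain (V B : Ban) : ℕ → Ban
  | 0 => V
  | n + 1 => Ban.pt (Ban.chain V B n) B

/-- The elementary tensor `x ⊗ a₀ ⊗ ⋯ ⊗ aₙ₋₁` in `V ⊗ B ⊗ ⋯ ⊗ B`. -/
noncomputable def Ban.elt (V B : Ban) (x : V.carrier) :
    ∀ n, (Fin n → B.carrier) → (Ban.chain V B n).carrier
  | 0, _ => x
  | n + 1, a => Ban.tm (Ban.elt V B x n (Fin.init a)) (a (Fin.last n))

/-- A complex Banach algebra, not necessarily unital. -/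
structure BanAlg where
  /-- the underlying space -/
  carrier : Type
  [ring : NonUnitalNormedRing carrier]
  [spc : NormedSpace ℂ carrier]
  [tower : IsScalarTower ℂ carrier carrier]
  [comm : SMulCommClass ℂ carrier carrier]
  [cpl : CompleteSpace carrier]

attribute [instance] BanAlg.ring BanAlg.spc BanAlg.tower BanAlg.comm BanAlg.cpl

/-- The underlying Banach space of a Banach algebra. -/
abbrev BanAlg.ban (A : BanAlg) : Ban := ⟨A.carrier⟩

/-- A Banach bimodule over the Banach algebra `A`: a Banach space `V` with bounded bilinear left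
and right actions `l a x = a · x` and `r x a = x · a` of `A` which are associative and commute. -/
structure Bimod (A : BanAlg) where
  /-- the underlying Banach space -/
  V : Ban
  /-- the left action, `l a x = a · x` -/
  l : A.carrier → V.carrier → V.carrier
  /-- the right action, `r x a = x · a` -/
  r : V.carrier → A.carrier → V.carrier
  l_add_left : ∀ a b x, l (a + b) x = l a x + l b x
  l_add_right : ∀ a x y, l a (x + y) = l a x + l a y
  l_smul_left : ∀ (c : ℂ) a x, l (c • a) x = c • l a x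
  l_smul_right : ∀ (c : ℂ) a x, l a (c • x) = c • l a x
  r_add_left : ∀ x y a, r (x + y) a = r x a + r y a
  r_add_right : ∀ x a b, r x (a + b) = r x a + r x b
  r_smul_left : ∀ (c : ℂ) x a, r (c • x) a = c • r x a
  r_smul_right : ∀ (c : ℂ) x a, r x (c • a) = c • r x a
  l_mul : ∀ a b x, l (a * b) x = l a (l b x)
  r_mul : ∀ x a b, r x (a * b) = r (r x a) b
  l_r : ∀ a x b, l a (r x b) = r (l a x) b
  bound : ∃ C : ℝ, ∀ a x, ‖l a x‖ ≤ C * ‖a‖ * ‖x‖ ∧ ‖r x a‖ ≤ C * ‖a‖ * ‖x‖

/-- The space of chains `Cₙ(A, X) = X ⊗ A ⊗ ⋯ ⊗ A` with `n` factors `A`. -/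
noncomputable abbrev Bimod.C {A : BanAlg} (X : Bimod A) (n : ℕ) : Ban := Ban.chain X.V A.ban n

/-- The elementary tensor `x ⊗ a₀ ⊗ ⋯ ⊗ aₙ₋₁` in `Cₙ(A, X)`. -/
noncomputable abbrev Bimod.elt {A : BanAlg} (X : Bimod A) (n : ℕ) (x : X.V.carrier)
    (a : Fin n → A.carrier) : (X.C n).carrier := Ban.elt X.V A.ban x n a

/-- The bounded linear maps `dₙ : Cₙ₊₁(A, X) → Cₙ(A, X)` are the Hochschild differentials:
`dₙ (x ⊗ a₀ ⊗ ⋯ ⊗ aₙ) = x · a₀ ⊗ a₁ ⊗ ⋯ ⊗ aₙ + ∑_{i < n} (-1)^(i+1) x ⊗ ⋯ ⊗ aᵢ aᵢ₊₁ ⊗ ⋯ ⊗ aₙ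
  + (-1)^(n+1) aₙ · x ⊗ a₀ ⊗ ⋯ ⊗ aₙ₋₁`.
(Elementary tensors span a dense subspace, so there is exactly one such `d`.) -/
def Bimod.IsHochschild {A : BanAlg} (X : Bimod A) (d : ∀ n, Ban.Hom (X.C (n + 1)) (X.C n)) :
    Prop :=
  ∀ (n : ℕ) (x : X.V.carrier) (a : Fin (n + 1) → A.carrier),
    d n (X.elt (n + 1) x a) = X.elt n (X.r x (a 0)) (Fin.tail a) +
      ∑ i : Fin n, (-1 : ℂ) ^ ((i : ℕ) + 1) •
        X.elt n x (Fin.contractNth i.castSucc (fun b c => b * c) a) +
      (-1 : ℂ) ^ (n + 1) • X.elt n (X.l (a (Fin.last n)) x) (Fin.init a)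

/-- `Hₖ(A, X) = ker dₖ₋₁ / im dₖ` vanishes for all `k ≥ 1` and all Banach bimodules `X`. -/
def BanAlg.HigherVanishing (A : BanAlg) : Prop :=
  ∀ X : Bimod A, ∃ d : ∀ n, Ban.Hom (X.C (n + 1)) (X.C n), X.IsHochschild d ∧
    ∀ n z, d n z = 0 ↔ z ∈ Set.range (d (n + 1))

/-- Amenability of the Banach algebra `A`, in its homological form: for every Banach
`A`-bimodule `X`, `H₁(A, X) = ker d₀ / im d₁ = 0` and `H₀(A, X) = X / im d₀` is Hausdorff,
i.e. `im d₀` is closed. -/
def BanAlg.IsAmenable (A : BanAlg) : Prop :=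
  ∀ X : Bimod A, ∃ d : ∀ n, Ban.Hom (X.C (n + 1)) (X.C n), X.IsHochschild d ∧
    (∀ z, d 0 z = 0 → z ∈ Set.range (d 1)) ∧ IsClosed (Set.range (d 0))

end Pool.Agent.Hoch
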