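import Pool.Agent.Hoch.Alg

/-!
# The approximate diagonal of the algebra `Alg`
-/

open scoped TensorProduct Topology ZeroAtInfty
open Filter

namespace Pool.Agent.Hoch

section gens

/-- The element with value `2 x` at `q` and `0` elsewhere. -/
noncomputable def genFun (q : QQ) (x : E1) : Alg :=
  Alg.mk (fun r => if r = q then (2 : ℂ) • x else 0) (by
    refine tendsto_const_nhds.congr' ?_
    rw [EventuallyEq, Filter.eventually_cofinite]
    refine (Set.finite_singleton q).subset (fun r hr => ?_)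
    by_contra h
    have h' : r ≠ q := fun e => h (by rw [e]; rfl)
    apply hr
    rw [if_neg h'])

theorem genFun_apply (q : QQ) (x : E1) (r : QQ) :
    genFun q x r = if r = q then (2 : ℂ) • x else 0 := rfl

/-- `genFun`, as a continuous linear map. -/
noncomputable def gen (q : QQ) : E1 →L[ℂ] Alg :=
  LinearMap.mkContinuous (𝕜 := ℂ) (E := E1) (F := Alg)
    { toFun := genFun q
      map_add' := fun x y => Alg.ext (fun r => by
        rw [Alg.add_apply, genFun_apply, genFun_apply, genFun_apply]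
        split_ifs <;> simp)
      map_smul' := fun c x => Alg.ext (fun r => by
        rw [RingHom.id_apply, Alg.smul_apply, genFun_apply, genFun_apply]
        split_ifs
        · rw [smul_comm]
        · simp) }
    2 (fun x => Alg.norm_le _ _ (by positivity) (fun r => by
      change ‖(if r = q then (2 : ℂ) • x else 0 : E1)‖ ≤ _
      split_ifs
      · rw [norm_smul]; simp
      · rw [norm_zero]; positivity))

theorem gen_apply (q : QQ) (x : E1) (r : QQ) :
    gen q x r = if r = q then (2 : ℂ) • x else 0 := rfl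

theorem gen_apply_self (q : QQ) (x : E1) : gen q x q = (2 : ℂ) • x := by
  rw [gen_apply, if_pos rfl]

theorem gen_apply_ne (q : QQ) (x : E1) {r : QQ} (h : r ≠ q) : gen q x r = 0 := by
  rw [gen_apply, if_neg h]

theorem mul_gen (T : Alg) (q : QQ) (x : E1) : T * gen q x = gen q (hat T x) := by
  refine Alg.ext (fun r => ?_)
  rw [Alg.mul_apply, gen_apply, gen_apply]
  split_ifs
  · rw [map_smul]
  · rw [map_zero]

/-- The coefficients of the multiplication. -/
noncomputable def theta : QQ → ℕ → ℂ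
  | Sum.inl a, b => if a = b then 1 else 0
  | Sum.inr k, b => if kap b = k then (mu k : ℂ) else 0

theorem hat_gen (q : QQ) (x : E1) (b : ℕ) : hat (gen q x) (ee b) = theta q b • x := by
  rw [hat_ee, hh]
  cases q with
  | inl a =>
    rw [gen_apply_ne (Sum.inl a) x (r := Sum.inr (kap b)) (by simp), smul_zero, add_zero, gen_apply]
    simp only [theta, Sum.inl.injEq]
    by_cases h : b = a
    · rw [if_pos h, if_pos h.symm, smul_smul]; norm_num
    · rw [if_neg h, if_neg (Ne.symm h), smul_zero, zero_smul]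
  | inr k =>
    rw [gen_apply_ne (Sum.inr k) x (r := Sum.inl b) (by simp), zero_add, gen_apply]
    simp only [theta, Sum.inr.injEq]
    by_cases h : kap b = k
    · rw [if_pos h, if_pos h, smul_smul, smul_smul, h]
      congr 1
      ring
    · rw [if_neg h, if_neg h, smul_zero, smul_zero, zero_smul]

/-- The generators of the algebra. -/
noncomputable def mm (a : ℕ) (q : QQ) : Alg := gen q (ee a)

theorem mm_mul (a : ℕ) (q : QQ) (b : ℕ) (r : QQ) : mm a q * mm b r = theta q b • mm a r := by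
  rw [mm, mm, mul_gen, hat_gen, map_smul]
  rfl

theorem mul_mm_apply (T : Alg) (b : ℕ) (r : QQ) : T * mm b r = gen r (hat T (ee b)) := by
  rw [mm, mul_gen]

/-- Truncation of an element of the algebra to a finite set. -/
theorem trunc_apply (T : Alg) (R : Finset QQ) (r : QQ) :
    (∑ q ∈ R, gen q ((1 / 2 : ℂ) • T q)) r = if r ∈ R then T r else 0 := by
  have h : ∀ (R : Finset QQ) (f : QQ → Alg) (r : QQ), (∑ q ∈ R, f q) r = ∑ q ∈ R, f q r := by
    intro R f r
    induction R using Finset.induction_on with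
    | empty => simp [Alg.zero_apply]
    | insert a s ha ih => rw [Finset.sum_insert ha, Finset.sum_insert ha, Alg.add_apply, ih]
  rw [h]
  split_ifs with hr
  · rw [Finset.sum_eq_single r]
    · rw [gen_apply_self, smul_smul]; norm_num
    · intro q _ hq
      rw [gen_apply_ne _ _ hq.symm]
    · intro h; exact absurd hr h
  · refine Finset.sum_eq_zero (fun q hq => ?_)
    rw [gen_apply_ne]
    rintro rfl
    exact hr hq

/-- Truncation, as a continuous linear map. -/
noncomputable def trunc (R : Finset QQ) : Alg →L[ℂ] Alg :=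
  LinearMap.mkContinuous (𝕜 := ℂ) (E := Alg) (F := Alg)
    { toFun := fun T => ∑ q ∈ R, gen q ((1 / 2 : ℂ) • T q)
      map_add' := fun T S => by
        rw [← Finset.sum_add_distrib]
        refine Finset.sum_congr rfl (fun q _ => ?_)
        rw [Alg.add_apply, smul_add, map_add]
      map_smul' := fun c T => by
        rw [RingHom.id_apply, Finset.smul_sum]
        refine Finset.sum_congr rfl (fun q _ => ?_)
        rw [Alg.smul_apply, smul_comm, map_smul] }
    1 (fun T => Alg.norm_le _ _ (by positivity) (fun r => by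
      have := trunc_apply T R r
      rw [one_mul]
      refine (congrArg norm this).trans_le ?_
      split_ifs
      · exact T.norm_apply_le r
      · rw [norm_zero]; positivity))

theorem trunc_eq (R : Finset QQ) (T : Alg) :
    trunc R T = ∑ q ∈ R, gen q ((1 / 2 : ℂ) • T q) := rfl

theorem norm_trunc_le (R : Finset QQ) : ‖trunc R‖ ≤ 1 :=
  LinearMap.mkContinuous_norm_le _ zero_le_one _

theorem tendsto_trunc (T : Alg) : Tendsto (fun R : Finset QQ => trunc R T) atTop (𝓝 T) := by
  rw [Metric.tendsto_atTop]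
  intro ε hε
  have h := (Metric.tendsto_nhds.1 T.tendsto_zero) (ε / 2) (by positivity)
  rw [Filter.eventually_cofinite] at h
  refine ⟨h.toFinset, fun R hR => ?_⟩
  rw [dist_eq_norm]
  refine lt_of_le_of_lt (Alg.norm_le _ (ε / 2) (by positivity) (fun r => ?_)) (half_lt_self hε)
  rw [Alg.sub_apply, trunc_eq, trunc_apply]
  split_ifs with hr
  · rw [sub_self, norm_zero]; positivity
  · have : r ∉ h.toFinset := fun h' => hr (hR h')
    rw [Set.Finite.mem_toFinset] at this
    simp only [Set.mem_ofPred_eq, not_not] at this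
    rw [dist_zero_right] at this
    rw [zero_sub, norm_neg]
    exact this.le

theorem mm_dense (T : Alg) :
    T ∈ (Submodule.span ℂ {t : Alg | ∃ a q, t = mm a q}).topologicalClosure := by
  set M := (Submodule.span ℂ {t : Alg | ∃ a q, t = mm a q}).topologicalClosure with hM
  have hMc : IsClosed (M : Set Alg) := Submodule.isClosed_topologicalClosure _
  have h1 : ∀ q x, gen q x ∈ M := by
    intro q x
    have hs := (gen q).hasSum (E1_hasSum x)
    refine hMc.mem_of_tendsto hs (Eventually.of_forall (fun s => ?_))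
    refine Submodule.sum_mem _ (fun i _ => ?_)
    simp only [map_smul]
    exact Submodule.smul_mem _ _ (Submodule.le_topologicalClosure _
      (Submodule.subset_span ⟨i, q, rfl⟩))
  refine hMc.mem_of_tendsto (tendsto_trunc T) (Eventually.of_forall (fun R => ?_))
  rw [trunc_eq]
  exact Submodule.sum_mem _ (fun q _ => h1 q _)

end gens

section signs

variable {U V : Type} [NormedAddCommGroup U] [NormedSpace ℂ U] [CompleteSpace U]
  [NormedAddCommGroup V] [NormedSpace ℂ V] [CompleteSpace V]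

/-- The averaging trick over signs. -/
theorem norm_add_sum_tmul_le {α : Type} [DecidableEq α] (s : Finset α) (u : α → U) (v : α → V)
    (B C : ℝ) (hB : 0 ≤ B) : ∀ (u0 : U) (v0 : V),
    (∀ ε : α → ℂ, (∀ a, ε a = 1 ∨ ε a = -1) → ‖u0 + ∑ a ∈ s, ε a • u a‖ ≤ B) →
    (∀ ε : α → ℂ, (∀ a, ε a = 1 ∨ ε a = -1) → ‖v0 + ∑ a ∈ s, ε a • v a‖ ≤ C) →
    ‖tmul u0 v0 + ∑ a ∈ s, tmul (u a) (v a)‖ ≤ B * C := by
  induction s using Finset.induction_on with
  | empty =>
    intro u0 v0 h1 h2
    have h1' := h1 (fun _ => 1) (fun _ => Or.inl rfl)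
    have h2' := h2 (fun _ => 1) (fun _ => Or.inl rfl)
    simp only [Finset.sum_empty, add_zero] at h1' h2' ⊢
    exact (norm_tmul_le u0 v0).trans (by gcongr)
  | insert b s hb ih =>
    intro u0 v0 h1 h2
    have key : ∀ (W : Type) [NormedAddCommGroup W] [NormedSpace ℂ W] (w : α → W) (w0 : W) (B : ℝ),
        (∀ ε : α → ℂ, (∀ a, ε a = 1 ∨ ε a = -1) → ‖w0 + ∑ a ∈ insert b s, ε a • w a‖ ≤ B) →
        ∀ c : ℂ, (c = 1 ∨ c = -1) → ∀ ε : α → ℂ, (∀ a, ε a = 1 ∨ ε a = -1) →
          ‖(w0 + c • w b) + ∑ a ∈ s, ε a • w a‖ ≤ B := by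
      intro W _ _ w w0 B h c hc ε hε
      have h' := h (Function.update ε b c) (fun a => by
        by_cases hab : a = b
        · subst hab; simpa using hc
        · rw [Function.update_of_ne hab]; exact hε a)
      rw [Finset.sum_insert hb, Function.update_self] at h'
      have e : ∑ a ∈ s, Function.update ε b c a • w a = ∑ a ∈ s, ε a • w a := by
        refine Finset.sum_congr rfl (fun a ha => ?_)
        rw [Function.update_of_ne]
        rintro rfl
        exact hb ha
      rw [e, ← add_assoc] at h'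
      exact h'
    have i1 := ih (u0 + (1 : ℂ) • u b) (v0 + (1 : ℂ) • v b)
      (key U u u0 B h1 1 (Or.inl rfl)) (key V v v0 C h2 1 (Or.inl rfl))
    have i2 := ih (u0 + (-1 : ℂ) • u b) (v0 + (-1 : ℂ) • v b)
      (key U u u0 B h1 (-1) (Or.inr rfl)) (key V v v0 C h2 (-1) (Or.inr rfl))
    rw [Finset.sum_insert hb]
    have e : tmul u0 v0 + (tmul (u b) (v b) + ∑ a ∈ s, tmul (u a) (v a)) =
        (1 / 2 : ℂ) • ((tmul (u0 + (1 : ℂ) • u b) (v0 + (1 : ℂ) • v b) +
          ∑ a ∈ s, tmul (u a) (v a)) +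
          (tmul (u0 + (-1 : ℂ) • u b) (v0 + (-1 : ℂ) • v b) + ∑ a ∈ s, tmul (u a) (v a))) := by
      simp only [one_smul, neg_smul, map_add, map_neg, add_apply, neg_apply]
      module
    rw [e, norm_smul]
    have h3 : ‖(1 / 2 : ℂ)‖ = 1 / 2 := by norm_num
    rw [h3]
    have := norm_add_le (tmul (u0 + (1 : ℂ) • u b) (v0 + (1 : ℂ) • v b) +
      ∑ a ∈ s, tmul (u a) (v a))
      (tmul (u0 + (-1 : ℂ) • u b) (v0 + (-1 : ℂ) • v b) + ∑ a ∈ s, tmul (u a) (v a))
    linarith

theorem norm_sum_tmul_le {α : Type} [DecidableEq α] (s : Finset α) (u : α → U) (v : α → V)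
    (B C : ℝ) (hB : 0 ≤ B)
    (h1 : ∀ ε : α → ℂ, (∀ a, ε a = 1 ∨ ε a = -1) → ‖∑ a ∈ s, ε a • u a‖ ≤ B)
    (h2 : ∀ ε : α → ℂ, (∀ a, ε a = 1 ∨ ε a = -1) → ‖∑ a ∈ s, ε a • v a‖ ≤ C) :
    ‖∑ a ∈ s, tmul (u a) (v a)‖ ≤ B * C := by
  have := norm_add_sum_tmul_le s u v B C hB 0 0 (by simpa using h1) (by simpa using h2)
  simpa using this

end signs

theorem Alg.sum_apply {α : Type} (R : Finset α) (f : α → Alg) (r : QQ) :
    (∑ q ∈ R, f q) r = ∑ q ∈ R, f q r := by
  classical
  induction R using Finset.induction_on with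
  | empty => simp [Alg.zero_apply]
  | insert a s ha ih => rw [Finset.sum_insert ha, Finset.sum_insert ha, Alg.add_apply, ih]

theorem norm_sum_gen_le {α : Type} (s : Finset α) (q : α → QQ)
    (hq : ∀ a ∈ s, ∀ b ∈ s, q a = q b → a = b) (x : α → E1) (hx : ∀ a ∈ s, ‖x a‖ ≤ 1) :
    ‖∑ a ∈ s, gen (q a) (x a)‖ ≤ 2 := by
  refine Alg.norm_le _ _ (by norm_num) (fun r => ?_)
  rw [Alg.sum_apply]
  by_cases h : ∃ a ∈ s, r = q a
  · obtain ⟨a, ha, rfl⟩ := h
    rw [Finset.sum_eq_single a]
    · rw [gen_apply_self, norm_smul]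
      have h2 : ‖(2 : ℂ)‖ = 2 := by norm_num
      rw [h2]
      linarith [hx a ha]
    · intro b hb hba
      rw [gen_apply_ne]
      intro hh
      exact hba (hq b hb a ha hh.symm)
    · intro h; exact absurd ha h
  · rw [Finset.sum_eq_zero, norm_zero]
    · norm_num
    · intro a ha
      rw [gen_apply_ne]
      intro hh
      exact h ⟨a, ha, hh⟩

/-- The element `(1/m) ∑ e_{c,a} ⊗ e_{a,c}` of `Alg ⊗ Alg`. -/
noncomputable def DD (m : ℕ) : PT Alg Alg :=
  (1 / m : ℂ) • ∑ a ∈ Finset.range m, ∑ c ∈ Finset.range m,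
    tmul (mm c (Sum.inl a)) (mm a (Sum.inl c))

theorem norm_DD_le (m : ℕ) : ‖DD m‖ ≤ 4 := by
  rcases Nat.eq_zero_or_pos m with rfl | hm
  · simp [DD]
  have : NeZero m := ⟨hm.ne'⟩
  have h1 : ∑ a ∈ Finset.range m, ∑ c ∈ Finset.range m,
      tmul (mm c (Sum.inl a)) (mm a (Sum.inl c)) =
      ∑ s : Fin m, ∑ a : Fin m, tmul (mm ((s + a : Fin m) : ℕ) (Sum.inl (a : ℕ)))
        (mm (a : ℕ) (Sum.inl ((s + a : Fin m) : ℕ))) := by
    rw [Finset.sum_comm (s := (Finset.univ : Finset (Fin m)))]
    rw [Finset.sum_range]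
    refine Finset.sum_congr rfl (fun a _ => ?_)
    rw [Finset.sum_range]
    exact (Equiv.sum_comp (Equiv.addRight a)
      (fun c : Fin m => tmul (mm (c : ℕ) (Sum.inl (a : ℕ))) (mm (a : ℕ) (Sum.inl (c : ℕ))))).symm
  have h2 : ∀ s : Fin m, ‖∑ a : Fin m, tmul (mm ((s + a : Fin m) : ℕ) (Sum.inl (a : ℕ)))
        (mm (a : ℕ) (Sum.inl ((s + a : Fin m) : ℕ)))‖ ≤ 2 * 2 := by
    intro s
    refine norm_sum_tmul_le _ _ _ 2 2 (by norm_num) (fun ε hε => ?_) (fun ε hε => ?_)
    · have : ∀ a : Fin m, ε a • mm ((s + a : Fin m) : ℕ) (Sum.inl (a : ℕ)) =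
          gen (Sum.inl (a : ℕ)) (ε a • ee ((s + a : Fin m) : ℕ)) := by
        intro a; rw [mm, map_smul]
      simp only [this]
      refine norm_sum_gen_le _ _ ?_ _ ?_
      · intro a _ b _ hab
        exact Fin.ext (Sum.inl.inj hab)
      · intro a _
        rw [norm_smul, norm_ee]
        rcases hε a with h | h <;> simp [h]
    · have : ∀ a : Fin m, ε a • mm (a : ℕ) (Sum.inl ((s + a : Fin m) : ℕ)) =
          gen (Sum.inl ((s + a : Fin m) : ℕ)) (ε a • ee (a : ℕ)) := by
        intro a; rw [mm, map_smul]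
      simp only [this]
      refine norm_sum_gen_le _ _ ?_ _ ?_
      · intro a _ b _ hab
        exact add_left_cancel (Fin.ext (Sum.inl.inj hab))
      · intro a _
        rw [norm_smul, norm_ee]
        rcases hε a with h | h <;> simp [h]
  rw [DD, h1, norm_smul]
  have h3 : ‖(1 / m : ℂ)‖ = 1 / m := by simp
  rw [h3]
  have h4 : ‖∑ s : Fin m, ∑ a : Fin m, tmul (mm ((s + a : Fin m) : ℕ) (Sum.inl (a : ℕ)))
        (mm (a : ℕ) (Sum.inl ((s + a : Fin m) : ℕ)))‖ ≤ m * 4 := by
    refine (norm_sum_le _ _).trans ?_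
    refine (Finset.sum_le_sum (fun s _ => h2 s)).trans ?_
    simp
    norm_num
  have hm' : (0 : ℝ) < m := by exact_mod_cast hm
  calc (1 / m : ℝ) * _ ≤ (1 / m) * (m * 4) := by gcongr
    _ = 4 := by field_simp

/-- The left approximate identity. -/
noncomputable def PP (m : ℕ) : Alg := ∑ c ∈ Finset.range m, mm c (Sum.inl c)

theorem theta_inl (a b : ℕ) : theta (Sum.inl a) b = if a = b then 1 else 0 := rfl

theorem piA_DD (m : ℕ) (hm : m ≠ 0) : piA (DD m) = PP m := by
  have hm' : (m : ℂ) ≠ 0 := by exact_mod_cast hm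
  have h : ∀ a c : ℕ, piA (tmul (mm c (Sum.inl a)) (mm a (Sum.inl c))) = mm c (Sum.inl c) := by
    intro a c
    rw [piA_tmul, mm_mul, theta_inl, if_pos rfl, one_smul]
  rw [DD, map_smul, map_sum]
  simp only [map_sum, h]
  rw [Finset.sum_const, Finset.card_range, ← Nat.cast_smul_eq_nsmul ℂ, smul_smul]
  rw [show (1 / (m : ℂ)) * (m : ℂ) = 1 by field_simp, one_smul]
  rfl

theorem norm_piA_DD_le (m : ℕ) : ‖piA (A := Alg) (DD m)‖ ≤ ‖(piA : PT Alg Alg →L[ℂ] Alg)‖ * 4 :=
  ((piA (A := Alg)).le_opNorm _).trans (by gcongr; exact norm_DD_le m)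

theorem PP_mul (m : ℕ) (b : ℕ) (r : QQ) (hb : b < m) : PP m * mm b r = mm b r := by
  rw [PP, Finset.sum_mul, Finset.sum_eq_single b]
  · rw [mm_mul]; simp [theta_inl]
  · intro c _ hc
    rw [mm_mul]; simp [theta_inl, hc]
  · intro h
    exact absurd (Finset.mem_range.2 hb) h

theorem H2 (T : Alg) : Tendsto (fun m : ℕ => piA (DD m) * T) atTop (𝓝 T) := by
  have := tendsto_of_dense (P := Alg) (E := Alg) (F := Alg) (l := (atTop : Filter ℕ))
    (ContinuousLinearMap.mul ℂ Alg)
    (ContinuousLinearMap.id ℂ Alg) (fun m => piA (DD m)) _ norm_piA_DD_le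
    {t : Alg | ∃ a q, t = mm a q} ?_ T (mm_dense T)
  · simpa using this
  · rintro _ ⟨a, q, rfl⟩
    refine tendsto_const_nhds.congr' ?_
    filter_upwards [eventually_gt_atTop a] with m hm
    rw [piA_DD m (by omega), ContinuousLinearMap.mul_apply', PP_mul m a q hm]
    rfl

theorem twoAct_tmul (a b p q : Alg) : twoAct a b (tmul p q) = tmul (a * p) (q * b) := by
  simp [twoAct]

theorem rightAct_tmul (b p q : Alg) : rightAct b (tmul p q) = tmul p (q * b) := by
  simp [rightAct]

/-- The exact identity behind (H3). -/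
theorem H3_exact (x y : ℕ) (q r : QQ) (m : ℕ) (hx : x < m) (hy : y < m) :
    twoAct (mm x q) (mm y r) (DD m) - rightAct (mm x q * mm y r) (DD m) = 0 := by
  have h1 : twoAct (mm x q) (mm y r) (DD m) = (1 / m : ℂ) • ∑ a ∈ Finset.range m,
      theta q y • tmul (mm x (Sum.inl a)) (mm a r) := by
    rw [DD, twoAct, map_smul, map_smul, map_sum, map_sum]
    congr 1
    refine Finset.sum_congr rfl (fun a _ => ?_)
    rw [map_sum, map_sum]
    have : ∀ c, mapL Alg Alg Alg (ContinuousLinearMap.mul ℂ Alg (mm x q))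
        (mapR Alg Alg Alg ((ContinuousLinearMap.mul ℂ Alg).flip (mm y r))
          (tmul (mm c (Sum.inl a)) (mm a (Sum.inl c)))) =
        tmul (mm x q * mm c (Sum.inl a)) (mm a (Sum.inl c) * mm y r) := by
      intro c
      simp
    simp only [this, mm_mul]
    rw [Finset.sum_eq_single y]
    · simp [theta_inl]
    · intro c _ hc
      simp [theta_inl, hc]
    · intro h
      exact absurd (Finset.mem_range.2 hy) h
  have h2 : rightAct (mm x q * mm y r) (DD m) = (1 / m : ℂ) • ∑ a ∈ Finset.range m,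
      theta q y • tmul (mm x (Sum.inl a)) (mm a r) := by
    rw [DD, rightAct, map_smul, map_sum]
    congr 1
    refine Finset.sum_congr rfl (fun a _ => ?_)
    rw [map_sum]
    have : ∀ c, (mapR Alg Alg Alg ((ContinuousLinearMap.mul ℂ Alg).flip (mm x q * mm y r))
          (tmul (mm c (Sum.inl a)) (mm a (Sum.inl c)))) =
        tmul (mm c (Sum.inl a)) (mm a (Sum.inl c) * (mm x q * mm y r)) := by
      intro c
      simp
    simp only [this]
    simp only [mm_mul, mul_smul_comm]
    rw [Finset.sum_eq_single x]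
    · simp [theta_inl]
    · intro c _ hc
      simp [theta_inl, hc]
    · intro h
      exact absurd (Finset.mem_range.2 hx) h
  rw [h1, h2, sub_self]

/-- `(a, D) ↦ a · D · b - D · (a b)`. -/
noncomputable def defect (b : Alg) : PT Alg Alg →L[ℂ] Alg →L[ℂ] PT Alg Alg :=
  (((mapL Alg Alg Alg).comp (ContinuousLinearMap.mul ℂ Alg)).flip).comp
    (mapR Alg Alg Alg ((ContinuousLinearMap.mul ℂ Alg).flip b)) -
  ((mapR Alg Alg Alg).comp (((ContinuousLinearMap.mul ℂ Alg).flip).comp
    ((ContinuousLinearMap.mul ℂ Alg).flip b))).flip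

theorem defect_apply (a b : Alg) (D : PT Alg Alg) :
    defect b D a = twoAct a b D - rightAct (a * b) D := by
  simp [defect, twoAct, rightAct]

/-- `(b, D) ↦ a · D · b - D · (a b)`. -/
noncomputable def defect' (a : Alg) : PT Alg Alg →L[ℂ] Alg →L[ℂ] PT Alg Alg :=
  (((ContinuousLinearMap.compL ℂ (PT Alg Alg) (PT Alg Alg) (PT Alg Alg)
      (mapL Alg Alg Alg (ContinuousLinearMap.mul ℂ Alg a))).comp
      ((mapR Alg Alg Alg).comp (ContinuousLinearMap.mul ℂ Alg).flip)).flip) -
  ((mapR Alg Alg Alg).comp (((ContinuousLinearMap.mul ℂ Alg).flip).comp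
    (ContinuousLinearMap.mul ℂ Alg a))).flip

theorem defect'_apply (a b : Alg) (D : PT Alg Alg) :
    defect' a D b = twoAct a b D - rightAct (a * b) D := by
  simp [defect', twoAct, rightAct]

theorem H3 (a b : Alg) :
    Tendsto (fun m : ℕ => twoAct a b (DD m) - rightAct (a * b) (DD m)) atTop (𝓝 0) := by
  have h1 : ∀ x q b, Tendsto (fun m : ℕ => twoAct (mm x q) b (DD m) -
      rightAct (mm x q * b) (DD m)) atTop (𝓝 0) := by
    intro x q b
    have := tendsto_of_dense (l := (atTop : Filter ℕ)) (defect' (mm x q)) 0 DD 4 norm_DD_le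
      {t : Alg | ∃ a q, t = mm a q} ?_ b (mm_dense b)
    · simpa only [defect'_apply, zero_apply] using this
    · rintro _ ⟨y, r, rfl⟩
      refine tendsto_const_nhds.congr' ?_
      filter_upwards [eventually_gt_atTop x, eventually_gt_atTop y] with m hx hy
      rw [defect'_apply, H3_exact x y q r m hx hy]
      rfl
  have := tendsto_of_dense (l := (atTop : Filter ℕ)) (defect b) 0 DD 4 norm_DD_le
      {t : Alg | ∃ a q, t = mm a q} ?_ a (mm_dense a)
  · simpa only [defect_apply, zero_apply] using this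
  · rintro _ ⟨x, q, rfl⟩
    simpa only [defect_apply, zero_apply] using h1 x q b

end Pool.Agent.Hoch
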