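import Pool.Agent.Hoch.Example

/-!
# Right approximation and non-amenability of the algebra `Alg`
-/

open scoped TensorProduct Topology ZeroAtInfty
open Filter

namespace Pool.Agent.Hoch

section right

/-- Vectors `w q m` of `ℓ¹` with `hat T (w q m) → T q / 2`. -/
noncomputable def ww : QQ → ℕ → E1
  | Sum.inl i, m => ee i - ee (Nat.pair (kap i) m)
  | Sum.inr k, m => ((mu k : ℂ)⁻¹) • ee (Nat.pair k m)

theorem pair_tendsto (k : ℕ) : Tendsto (fun m => (Sum.inl (Nat.pair k m) : QQ)) atTop cofinite := by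
  rw [← Nat.cofinite_eq_atTop]
  refine Function.Injective.tendsto_cofinite (fun a b h => ?_)
  have := Sum.inl.inj h
  exact (Nat.pair_eq_pair.1 this).2

theorem tendsto_hat_ww (T : Alg) (q : QQ) :
    Tendsto (fun m => hat T (ww q m)) atTop (𝓝 ((1 / 2 : ℂ) • T q)) := by
  have h0 : ∀ k, Tendsto (fun m => T (Sum.inl (Nat.pair k m))) atTop (𝓝 0) := fun k =>
    T.tendsto_zero.comp (pair_tendsto k)
  cases q with
  | inl i =>
    have h1 : ∀ m, hat T (ww (Sum.inl i) m) =
        (1 / 2 : ℂ) • (T (Sum.inl i) - T (Sum.inl (Nat.pair (kap i) m))) := by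
      intro m
      rw [ww, map_sub, hat_ee, hat_ee, hh, hh, kap_pair, ← smul_sub]
      congr 1
      abel
    simp only [h1]
    have := ((tendsto_const_nhds (x := T (Sum.inl i))).sub (h0 (kap i))).const_smul (1 / 2 : ℂ)
    simpa using this
  | inr k =>
    have h1 : ∀ m, hat T (ww (Sum.inr k) m) =
        (1 / 2 : ℂ) • ((mu k : ℂ)⁻¹ • T (Sum.inl (Nat.pair k m)) + T (Sum.inr k)) := by
      intro m
      rw [ww, map_smul, hat_ee, hh, kap_pair, smul_comm, smul_add, smul_smul ((mu k : ℂ)⁻¹),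
        inv_mul_cancel₀ (mu_ne k), one_smul]
    simp only [h1]
    have := (((h0 k).const_smul ((mu k : ℂ)⁻¹)).add
      (tendsto_const_nhds (x := T (Sum.inr k)))).const_smul (1 / 2 : ℂ)
    simpa using this

/-- A bound for the norms of the `ww q m`. -/
noncomputable def wB : QQ → ℝ
  | Sum.inl _ => 2
  | Sum.inr k => (mu k)⁻¹

theorem norm_ww_le (q : QQ) (m : ℕ) : ‖ww q m‖ ≤ wB q := by
  cases q with
  | inl i =>
    rw [ww, wB]
    refine (norm_sub_le _ _).trans ?_
    rw [norm_ee, norm_ee]; norm_num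
  | inr k =>
    rw [ww, wB, norm_smul, norm_ee, norm_inv, norm_mu, mul_one]

/-- The right approximating elements. -/
noncomputable def uu (R : Finset QQ) (m : ℕ) : Alg := ∑ q ∈ R, gen q (ww q m)

theorem norm_uu_le (R : Finset QQ) (m : ℕ) : ‖uu R m‖ ≤ ∑ q ∈ R, ‖gen q‖ * wB q := by
  refine (norm_sum_le _ _).trans (Finset.sum_le_sum (fun q _ => ?_))
  refine ((gen q).le_opNorm _).trans ?_
  gcongr
  exact norm_ww_le q m

theorem tendsto_mul_uu (R : Finset QQ) (T : Alg) :
    Tendsto (fun m => T * uu R m) atTop (𝓝 (trunc R T)) := by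
  have h : ∀ m, T * uu R m = ∑ q ∈ R, gen q (hat T (ww q m)) := by
    intro m
    rw [uu, Finset.mul_sum]
    exact Finset.sum_congr rfl (fun q _ => mul_gen T q _)
  simp only [h, trunc_eq]
  exact tendsto_finsetSum _ (fun q _ => ((gen q).continuous.tendsto _).comp (tendsto_hat_ww T q))

theorem HR (X : BanachBimod Alg) (z : (chains X 1).carrier) (ε : ℝ) (hε : 0 < ε) :
    ∃ u : Alg, ‖z - (chains X 1).ract u z‖ < ε := by
  have h1 : Tendsto (fun R : Finset QQ => cmapR X 0 (trunc R) z) atTop (𝓝 z) := by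
    refine tendsto_chain (cmapR X 0) (ContinuousLinearMap.id ℂ _) (fun R => trunc R) 1
      norm_trunc_le (fun c a => ?_) z
    have := ((ct X 0 c).continuous.tendsto a).comp (tendsto_trunc a)
    refine this.congr (fun R => ?_)
    simp
  obtain ⟨R, hR⟩ := ((Metric.tendsto_nhds.1 h1) (ε / 2) (by positivity)).exists
  have h2 : Tendsto (fun m : ℕ => (chains X 1).ract (uu R m) z) atTop
      (𝓝 (cmapR X 0 (trunc R) z)) := by
    refine tendsto_chain (n := 0) (chains X 1).ract (cmapR X 0 (trunc R)) (fun m => uu R m) _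
      (norm_uu_le R) (fun c a => ?_) z
    have := ((ct X 0 c).continuous.tendsto _).comp (tendsto_mul_uu R a)
    rw [cmapR_ct]
    refine this.congr (fun m => ?_)
    exact (ract_ct (X := X) (n := 0) (uu R m) c a).symm
  obtain ⟨m, hm⟩ := ((Metric.tendsto_nhds.1 h2) (ε / 2) (by positivity)).exists
  refine ⟨uu R m, ?_⟩
  rw [← dist_eq_norm]
  calc dist z ((chains X 1).ract (uu R m) z)
      ≤ dist z (cmapR X 0 (trunc R) z) + dist (cmapR X 0 (trunc R) z)
        ((chains X 1).ract (uu R m) z) := dist_triangle _ _ _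
    _ < ε / 2 + ε / 2 := by
      refine add_lt_add ?_ ?_
      · rw [dist_comm]; exact hR
      · rw [dist_comm]; exact hm
    _ = ε := by ring

theorem Alg_exact (X : BanachBimod Alg) (n : ℕ) (z : (chains X (n + 1)).carrier)
    (hz : hochD X n z = 0) : ∃ w : (chains X (n + 2)).carrier, hochD X (n + 1) w = z :=
  hoch_exact X (atTop : Filter ℕ) DD 4 norm_DD_le H2 H3 (HR X) n z hz

end right

section dual

/-- The dual of `ℓ¹`. -/
abbrev DE : Type := E1 →L[ℂ] ℂ

/-- The dual of `ℓ¹`, with zero left action, and with the right action `g · T = g ∘ hat T`. -/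
noncomputable def XX : BanachBimod Alg where
  ban := ⟨DE⟩
  acts :=
    { lact := 0
      ract := (ContinuousLinearMap.compL ℂ E1 E1 ℂ).flip.comp hat
      lact_mul := by intros; simp
      ract_mul := by
        intro a b x
        simp only [ContinuousLinearMap.comp_apply, ContinuousLinearMap.flip_apply, hat_mul]
        rfl
      lact_ract := by intros; simp }

/-- A functional, as a chain of degree zero. -/
noncomputable def toX (g : DE) : (chains XX 0).carrier := g

/-- A chain of degree zero, as a functional. -/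
noncomputable def ofX (g : (chains XX 0).carrier) : DE := g

theorem ofX_toX (g : DE) : ofX (toX g) = g := rfl
theorem toX_ofX (g : (chains XX 0).carrier) : toX (ofX g) = g := rfl

theorem XX_ract (T : Alg) (g : (chains XX 0).carrier) (x : E1) :
    ofX ((chains XX 0).ract T g) x = ofX g (hat T x) := rfl

/-- Evaluation of an element of the algebra at an index. -/
noncomputable def evq (q : QQ) : Alg →L[ℂ] E1 :=
  LinearMap.mkContinuous (𝕜 := ℂ) (E := Alg) (F := E1)
    { toFun := fun T => T q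
      map_add' := fun _ _ => rfl
      map_smul' := fun _ _ => rfl }
    1 (fun T => (T.norm_apply_le q).trans_eq (one_mul _).symm)

theorem evq_apply (q : QQ) (T : Alg) : evq q T = T q := rfl

/-- The bilinear map `(g, T) ↦ g (T q)`. -/
noncomputable def Bq (q : QQ) : DE →L[ℂ] Alg →L[ℂ] ℂ :=
  (ContinuousLinearMap.compL ℂ Alg E1 ℂ).flip (evq q)

theorem Bq_apply (q : QQ) (g : DE) (T : Alg) : Bq q g T = g (T q) := rfl

theorem norm_Bq_le (q : QQ) : ‖Bq q‖ ≤ 1 := by
  refine ContinuousLinearMap.opNorm_le_bound₂ _ zero_le_one (fun g T => ?_)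
  rw [Bq_apply, one_mul]
  refine (g.le_opNorm _).trans ?_
  gcongr
  exact T.norm_apply_le q

/-- The functional `g ⊗ T ↦ g (T q)`. -/
noncomputable def Fq (q : QQ) : (chains XX 1).carrier →L[ℂ] ℂ :=
  clift XX 0 (Bq q)

theorem Fq_ct (q : QQ) (g : (chains XX 0).carrier) (T : Alg) :
    Fq q (ct XX 0 g T) = ofX g (T q) :=
  clift_ct (X := XX) (n := 0) (Bq q) g T

theorem norm_Fq_le (q : QQ) : ‖Fq q‖ ≤ 1 :=
  (norm_lift_le (X := DE) (Y := Alg) (Bq q)).trans (norm_Bq_le q)

theorem tendsto_Fq (w : (chains XX 1).carrier) :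
    Tendsto (fun q => Fq q w) cofinite (𝓝 0) := by
  refine tendsto_chain (X := XX) (n := 0) (F := ℂ)
    (ContinuousLinearMap.id ℂ ((chains XX 1).carrier →L[ℂ] ℂ)) 0 Fq 1 norm_Fq_le
    (fun g T => ?_) w
  have h := ((ofX g).continuous.tendsto 0).comp T.tendsto_zero
  rw [map_zero] at h
  have e : (fun q => Fq q (ct XX 0 g T)) = (fun q => ofX g (T q)) :=
    funext (fun q => Fq_ct q g T)
  change Tendsto (fun q => Fq q (ct XX 0 g T)) cofinite (𝓝 0)
  rw [e]
  exact h

/-- evaluation at `ee i` -/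
noncomputable def evee (i : ℕ) : (chains XX 0).carrier →L[ℂ] ℂ :=
  (ContinuousLinearMap.apply ℂ ℂ (ee i) : DE →L[ℂ] ℂ)

theorem evee_apply (i : ℕ) (g : (chains XX 0).carrier) : evee i g = ofX g (ee i) := rfl

theorem hochD_ee (w : (chains XX 1).carrier) (i : ℕ) :
    evee i (hochD XX 0 w) =
      (1 / 2 : ℂ) * (Fq (Sum.inl i) w + (mu (kap i) : ℂ) * Fq (Sum.inr (kap i)) w) := by
  have key : (evee i).comp (hochD XX 0) =
      (1 / 2 : ℂ) • (Fq (Sum.inl i) + (mu (kap i) : ℂ) • Fq (Sum.inr (kap i))) := by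
    refine chain_ext (X := XX) (n := 0) (fun g T => ?_)
    rw [ContinuousLinearMap.comp_apply, hochD_ct, bPrime_zero_ct]
    have h1 : (chains XX 0).lact T g = 0 := rfl
    rw [h1, smul_zero, add_zero, evee_apply, XX_ract, hat_ee, hh, map_smul, map_add, map_smul]
    simp only [smul_apply, add_apply]
    rw [Fq_ct, Fq_ct]
  have h := congrArg (fun f => f w) key
  simp only [ContinuousLinearMap.comp_apply, smul_apply, add_apply, smul_eq_mul] at h
  exact h

/-- The limit of boundaries which is not a boundary. -/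
noncomputable def zz : DE :=
  synth (fun i => (mu (kap i) : ℂ)) 1 (fun i => by rw [norm_mu]; exact mu_le_one _)

theorem zz_ee (i : ℕ) : zz (ee i) = (mu (kap i) : ℂ) :=
  synth_ee (V := ℂ) (fun i => (mu (kap i) : ℂ)) 1 (fun i => by rw [norm_mu]; exact mu_le_one _) i

theorem zz_not_mem (w : (chains XX 1).carrier) : hochD XX 0 w ≠ toX zz := by
  intro h
  have h1 : ∀ i, (1 / 2 : ℂ) * (Fq (Sum.inl i) w + (mu (kap i) : ℂ) * Fq (Sum.inr (kap i)) w) =
      (mu (kap i) : ℂ) := by
    intro i
    rw [← hochD_ee, h, evee_apply, ofX_toX, zz_ee]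
  have h2 : ∀ k, Fq (Sum.inr k) w = 2 := by
    intro k
    have h3 : Tendsto (fun m => Fq (Sum.inl (Nat.pair k m)) w) atTop (𝓝 0) :=
      (tendsto_Fq w).comp (pair_tendsto k)
    have h4 : ∀ m, Fq (Sum.inl (Nat.pair k m)) w =
        2 * (mu k : ℂ) - (mu k : ℂ) * Fq (Sum.inr k) w := by
      intro m
      have := h1 (Nat.pair k m)
      rw [kap_pair] at this
      linear_combination 2 * this
    simp only [h4] at h3
    have h5 := tendsto_nhds_unique h3 tendsto_const_nhds
    have h6 : (mu k : ℂ) * (2 - Fq (Sum.inr k) w) = 0 := by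
      linear_combination -h5
    have h7 := (mul_eq_zero.1 h6).resolve_left (mu_ne k)
    exact (sub_eq_zero.1 h7).symm
  have h8 : Tendsto (fun k : ℕ => Fq (Sum.inr k) w) atTop (𝓝 0) := by
    refine (tendsto_Fq w).comp ?_
    rw [← Nat.cofinite_eq_atTop]
    exact Sum.inr_injective.tendsto_cofinite
  simp only [h2] at h8
  have := tendsto_nhds_unique h8 tendsto_const_nhds
  norm_num at this

/-- The coordinate functional at `0`. -/
noncomputable def g0 : DE :=
  synth (fun i => if i = 0 then (1 : ℂ) else 0) 1 (fun i => by split_ifs <;> simp)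

theorem g0_ee : g0 (ee 0) = 1 := by
  have := synth_ee (V := ℂ) (fun i => if i = 0 then (1 : ℂ) else 0) 1
    (fun i => by split_ifs <;> simp) 0
  rw [if_pos rfl] at this
  exact this

/-- The boundaries approximating `zz`. -/
noncomputable def zN (N : ℕ) : (chains XX 1).carrier :=
  ct XX 0 (toX g0) (∑ k ∈ Finset.range N, gen (Sum.inr k) (ee 0))

theorem hochD_zN (N i : ℕ) : evee i (hochD XX 0 (zN N)) =
    if kap i < N then (mu (kap i) : ℂ) else 0 := by
  rw [hochD_ee, zN, Fq_ct, Fq_ct, Alg.sum_apply, Alg.sum_apply, ofX_toX]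
  have h1 : ∑ k ∈ Finset.range N, gen (Sum.inr k) (ee 0) (Sum.inl i) = 0 :=
    Finset.sum_eq_zero (fun k _ => gen_apply_ne _ _ (by simp))
  have h2 : ∑ k ∈ Finset.range N, gen (Sum.inr k) (ee 0) (Sum.inr (kap i)) =
      if kap i < N then (2 : ℂ) • ee 0 else 0 := by
    split_ifs with h
    · rw [Finset.sum_eq_single (kap i), gen_apply_self]
      · intro k _ hk
        exact gen_apply_ne _ _ (by simpa using hk.symm)
      · intro h'
        exact absurd (Finset.mem_range.2 h) h'
    · refine Finset.sum_eq_zero (fun k hk => gen_apply_ne _ _ ?_)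
      rintro hh
      have := Sum.inr.inj hh
      rw [Finset.mem_range] at hk
      omega
  rw [h1, h2, map_zero, zero_add]
  split_ifs
  · rw [map_smul, g0_ee]
    simp only [smul_eq_mul]
    ring
  · simp

theorem zz_mem_closure : toX zz ∈ closure (Set.range (hochD XX 0)) := by
  rw [Metric.mem_closure_iff]
  intro ε hε
  obtain ⟨N, hN⟩ := exists_nat_gt (1 / ε)
  refine ⟨hochD XX 0 (zN N), ⟨zN N, rfl⟩, ?_⟩
  have hN0 : (0 : ℝ) < N := lt_trans (by positivity) hN
  have hlt : 1 / (N : ℝ) < ε := by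
    rw [div_lt_iff₀ hN0]
    rw [div_lt_iff₀ hε] at hN
    linarith
  have hb : ∀ i, ‖(if kap i < N then (0 : ℂ) else (mu (kap i) : ℂ))‖ ≤ 1 / N := by
    intro i
    split_ifs with h
    · rw [norm_zero]; positivity
    · rw [norm_mu, mu]
      have : (N : ℝ) ≤ kap i := by exact_mod_cast (not_lt.1 h)
      exact one_div_le_one_div_of_le hN0 (by linarith)
  have hz : zz - ofX (hochD XX 0 (zN N)) =
      synth (fun i => if kap i < N then (0 : ℂ) else (mu (kap i) : ℂ)) (1 / N) hb := by
    refine E1_ext (fun i => ?_)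
    have h1 : ofX (hochD XX 0 (zN N)) (ee i) =
      if kap i < N then (mu (kap i) : ℂ) else 0 := hochD_zN N i
    rw [sub_apply, h1, zz_ee, synth_ee]
    split_ifs <;> simp
  have hn : ‖zz - ofX (hochD XX 0 (zN N))‖ ≤ 1 / N := by
    rw [hz]; exact norm_synth_le _ _ _
  have hd : dist (toX zz) (hochD XX 0 (zN N)) = ‖zz - ofX (hochD XX 0 (zN N))‖ :=
    dist_eq_norm (toX zz) (hochD XX 0 (zN N))
  rw [hd]
  exact hn.trans_lt hlt

theorem not_closed : ¬ IsClosed (Set.range (hochD XX 0)) := by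
  intro h
  have h' := zz_mem_closure
  rw [h.closure_eq] at h'
  obtain ⟨w, hw⟩ := h'
  exact zz_not_mem w hw

end dual

end Pool.Agent.Hoch
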