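import Pool.Agent.Hoch.Ops

/-!
# Vanishing of Hochschild homology in positive degrees from approximate diagonals
-/

open scoped TensorProduct Topology
open Filter

namespace Pool.Agent.Hoch

section conv

variable {P E F G : Type} [NormedAddCommGroup P] [NormedSpace ℂ P]
  [NormedAddCommGroup E] [NormedSpace ℂ E] [NormedAddCommGroup F] [NormedSpace ℂ F]
  [NormedAddCommGroup G] [NormedSpace ℂ G]

/-- `D ↦ F D ∘ t` -/
noncomputable def rcomp (f : P →L[ℂ] E →L[ℂ] F) (t : G →L[ℂ] E) : P →L[ℂ] G →L[ℂ] F :=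
  ((ContinuousLinearMap.compL ℂ G E F).flip t).comp f

@[simp]
theorem rcomp_apply (f : P →L[ℂ] E →L[ℂ] F) (t : G →L[ℂ] E) (D : P) (z : G) :
    rcomp f t D z = f D (t z) := by
  simp [rcomp]

theorem tendsto_of_dense {ι : Type} {l : Filter ι} (f : P →L[ℂ] E →L[ℂ] F) (L : E →L[ℂ] F)
    (D : ι → P) (K : ℝ) (hK : ∀ i, ‖D i‖ ≤ K) (S : Set E)
    (h : ∀ x ∈ S, Tendsto (fun i => f (D i) x) l (𝓝 (L x))) (x : E)
    (hx : x ∈ (Submodule.span ℂ S).topologicalClosure) :
    Tendsto (fun i => f (D i) x) l (𝓝 (L x)) := by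
  have hcl : IsClosed {x | Tendsto (fun i => f (D i) x) l (𝓝 (L x))} := by
    refine isClosed_of_closure_subset (fun x hx => ?_)
    rw [Metric.mem_closure_iff] at hx
    rw [Set.mem_ofPred_eq, Metric.tendsto_nhds]
    intro ε hε
    set C := ‖f‖ * |K| + ‖L‖ + 1 with hC
    have hCpos : 0 < C := by positivity
    obtain ⟨y, hy, hxy⟩ := hx (ε / (2 * C)) (by positivity)
    have h2 := (Metric.tendsto_nhds.1 hy) (ε / 2) (by positivity)
    filter_upwards [h2] with i hi
    rw [dist_eq_norm] at hi hxy ⊢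
    have e1 : f (D i) x - L x = f (D i) (x - y) + (f (D i) y - L y) - L (x - y) := by
      rw [map_sub, map_sub]; abel
    have e2 : ‖f (D i) (x - y)‖ ≤ ‖f‖ * |K| * ‖x - y‖ := by
      refine (f.le_opNorm₂ _ _).trans ?_
      gcongr
      exact (hK i).trans (le_abs_self K)
    have e3 : ‖L (x - y)‖ ≤ ‖L‖ * ‖x - y‖ := L.le_opNorm _
    have e4 : C * ‖x - y‖ < ε / 2 := by
      calc C * ‖x - y‖ < C * (ε / (2 * C)) := by gcongr
        _ = ε / 2 := by field_simp
    have e5 : ‖f‖ * |K| * ‖x - y‖ + ‖L‖ * ‖x - y‖ ≤ C * ‖x - y‖ := by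
      rw [hC]
      nlinarith [norm_nonneg (x - y)]
    calc ‖f (D i) x - L x‖ = ‖f (D i) (x - y) + (f (D i) y - L y) - L (x - y)‖ := by rw [e1]
      _ ≤ ‖f (D i) (x - y) + (f (D i) y - L y)‖ + ‖L (x - y)‖ := norm_sub_le _ _
      _ ≤ ‖f (D i) (x - y)‖ + ‖f (D i) y - L y‖ + ‖L (x - y)‖ := by gcongr; exact norm_add_le _ _
      _ < ε := by linarith
  let M : Submodule ℂ E :=
    { carrier := {x | Tendsto (fun i => f (D i) x) l (𝓝 (L x))}
      add_mem' := by
        intro a b ha hb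
        simp only [Set.mem_ofPred_eq, map_add] at *
        exact ha.add hb
      zero_mem' := by simpa using tendsto_const_nhds
      smul_mem' := by
        intro c x hx
        simp only [Set.mem_ofPred_eq, map_smul] at *
        exact hx.const_smul c }
  have hle : (Submodule.span ℂ S).topologicalClosure ≤ M :=
    Submodule.topologicalClosure_minimal _ (Submodule.span_le.2 h) hcl
  exact hle hx

end conv

variable {A : Type} [NonUnitalNormedRing A] [NormedSpace ℂ A] [IsScalarTower ℂ A A]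
  [SMulCommClass ℂ A A] [CompleteSpace A]

theorem tendsto_chain {X : BanachBimod A} {n : ℕ} {ι P F : Type} {l : Filter ι}
    [NormedAddCommGroup P] [NormedSpace ℂ P] [NormedAddCommGroup F] [NormedSpace ℂ F]
    (f : P →L[ℂ] (chains X (n + 1)).carrier →L[ℂ] F) (L : (chains X (n + 1)).carrier →L[ℂ] F)
    (D : ι → P) (K : ℝ) (hK : ∀ i, ‖D i‖ ≤ K)
    (h : ∀ c a, Tendsto (fun i => f (D i) (ct X n c a)) l (𝓝 (L (ct X n c a))))
    (x : (chains X (n + 1)).carrier) :
    Tendsto (fun i => f (D i) x) l (𝓝 (L x)) := by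
  refine tendsto_of_dense f L D K hK
    {t : (chains X (n + 1)).carrier | ∃ c a, t = ct X n c a} ?_ x ?_
  · rintro _ ⟨c, a, rfl⟩
    exact h c a
  · have := dense_span (X := (chains X n).carrier) (Y := A)
    exact (Submodule.eq_top_iff'.1 this) x

/-- The element `a · D · b` of `A ⊗ A`, `a · (p ⊗ q) · b = a p ⊗ q b`. -/
noncomputable def twoAct (a b : A) (D : PT A A) : PT A A :=
  mapL A A A (ContinuousLinearMap.mul ℂ A a) (mapR A A A ((ContinuousLinearMap.mul ℂ A).flip b) D)

/-- The element `D · b` of `A ⊗ A`, `(p ⊗ q) · b = p ⊗ q b`. -/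
noncomputable def rightAct (b : A) (D : PT A A) : PT A A :=
  mapR A A A ((ContinuousLinearMap.mul ℂ A).flip b) D

section main

variable (X : BanachBimod A) (n : ℕ) {ι : Type} (l : Filter ι) (D : ι → PT A A) (K : ℝ)

/-- The closed submodule of `Cₙ` spanned by the elements `a · c`. -/
noncomputable def YSub : Submodule ℂ (chains X n).carrier :=
  (Submodule.span ℂ {y : (chains X n).carrier | ∃ a c, y = (chains X n).lact a c}).topologicalClosure

theorem lact_mem_YSub (a : A) (c : (chains X n).carrier) : (chains X n).lact a c ∈ YSub X n :=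
  Submodule.le_topologicalClosure _ (Submodule.subset_span ⟨a, c, rfl⟩)

theorem isClosed_YSub : IsClosed (YSub X n : Set (chains X n).carrier) :=
  Submodule.isClosed_topologicalClosure _

variable {n} in
theorem map_mem_YSub {m : ℕ} (T : (chains X n).carrier →L[ℂ] (chains X m).carrier)
    (hT : ∀ a c, T ((chains X n).lact a c) ∈ YSub X m) (y : (chains X n).carrier)
    (hy : y ∈ YSub X n) : T y ∈ YSub X m := by
  have hle : YSub X n ≤ (YSub X m).comap (T : (chains X n).carrier →ₗ[ℂ] (chains X m).carrier) := by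
    refine Submodule.topologicalClosure_minimal _ (Submodule.span_le.2 ?_) ?_
    · rintro _ ⟨a, c, rfl⟩
      exact hT a c
    · exact (isClosed_YSub X m).preimage T.continuous
  exact hle hy

theorem tOp_mem_YSub (z : (chains X (n + 1)).carrier) : tOp X n z ∈ YSub X n := by
  have hd := dense_span (X := (chains X n).carrier) (Y := A)
  have hle : (Submodule.span ℂ {t : (chains X (n + 1)).carrier | ∃ c a, t = ct X n c a}
      ).topologicalClosure ≤ (YSub X n).comap
      (tOp X n : (chains X (n + 1)).carrier →ₗ[ℂ] (chains X n).carrier) := by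
    refine Submodule.topologicalClosure_minimal _ (Submodule.span_le.2 ?_) ?_
    · rintro _ ⟨c, a, rfl⟩
      have := lact_mem_YSub X n a c
      rw [← tOp_ct] at this
      exact this
    · exact (isClosed_YSub X n).preimage (tOp X n).continuous
  exact hle ((Submodule.eq_top_iff'.1 hd) z)

theorem sOp_lact (D : PT A A) (a : A) (c : (chains X n).carrier) :
    sOp X n D ((chains X n).lact a c) ∈ YSub X (n + 1) := by
  have hd := dense_span (X := A) (Y := A)
  have hle : (Submodule.span ℂ {t : PT A A | ∃ p q, t = tmul p q}).topologicalClosure ≤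
      (YSub X (n + 1)).comap (((sOp X n).flip ((chains X n).lact a c) :
        PT A A →L[ℂ] (chains X (n + 1)).carrier) :
        PT A A →ₗ[ℂ] (chains X (n + 1)).carrier) := by
    refine Submodule.topologicalClosure_minimal _ (Submodule.span_le.2 ?_) ?_
    · rintro _ ⟨p, q, rfl⟩
      have := lact_mem_YSub X (n + 1) q (ct X n ((chains X n).lact a c) p)
      rw [lact_ct, ← sOp_tmul] at this
      exact this
    · exact (isClosed_YSub X (n + 1)).preimage ((sOp X n).flip _).continuous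
  exact hle ((Submodule.eq_top_iff'.1 hd) D)

theorem sOp_mem_YSub (D : PT A A) (y : (chains X n).carrier) (hy : y ∈ YSub X n) :
    sOp X n D y ∈ YSub X (n + 1) :=
  map_mem_YSub X (sOp X n D) (fun a c => sOp_lact X n D a c) y hy

theorem gOp_comm_lact (D : PT A A) (a : A) (z : (chains X (n + 1)).carrier) :
    gOp X n D ((chains X (n + 1)).lact a z) = (chains X (n + 2)).lact a (gOp X n D z) := by
  refine PT_ext_apply ((gOp X n).flip ((chains X (n + 1)).lact a z))
    (((chains X (n + 2)).lact a).comp ((gOp X n).flip z)) (fun p q => ?_) D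
  have key : (gOp X n (tmul p q)).comp ((chains X (n + 1)).lact a) =
      ((chains X (n + 2)).lact a).comp (gOp X n (tmul p q)) := by
    refine chain_ext (fun c b => ?_)
    simp only [ContinuousLinearMap.comp_apply]
    rw [lact_ct, gOp_tmul, gOp_tmul, lact_ct, lact_ct]
  exact congrArg (fun f => f z) key

theorem gOp_mem_YSub (D : PT A A) (y : (chains X (n + 1)).carrier) (hy : y ∈ YSub X (n + 1)) :
    gOp X n D y ∈ YSub X (n + 2) := by
  refine map_mem_YSub X (gOp X n D) (fun a c => ?_) y hy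
  rw [gOp_comm_lact]
  exact lact_mem_YSub X (n + 2) a _

/-- For `D = p ⊗ q`, `x ↦ (x · p) ⊗ q`. -/
noncomputable def VOp : PT A A →L[ℂ] ((chains X 0).carrier →L[ℂ] (chains X 1).carrier) :=
  lift (compBil (ct X 0).flip (chains X 0).ract).flip

@[simp]
theorem VOp_tmul (p q : A) (x : (chains X 0).carrier) :
    VOp X (tmul p q) x = ct X 0 ((chains X 0).ract p x) q := by
  simp [VOp]

theorem VOp_lact (D : PT A A) (a : A) (x : (chains X 0).carrier) :
    VOp X D ((chains X 0).lact a x) = (chains X 1).lact a (VOp X D x) := by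
  refine PT_ext_apply ((VOp X).flip ((chains X 0).lact a x))
    (((chains X 1).lact a).comp ((VOp X).flip x)) (fun p q => ?_) D
  simp only [ContinuousLinearMap.comp_apply, ContinuousLinearMap.flip_apply]
  rw [VOp_tmul, VOp_tmul, lact_ct, (chains X 0).lact_ract]

theorem VOp_mem_YSub (D : PT A A) (y : (chains X 0).carrier) (hy : y ∈ YSub X 0) :
    VOp X D y ∈ YSub X 1 := by
  refine map_mem_YSub X (VOp X D) (fun a c => ?_) y hy
  rw [VOp_lact]
  exact lact_mem_YSub X 1 a _

variable (hK : ∀ i, ‖D i‖ ≤ K)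
  (H2 : ∀ a : A, Tendsto (fun i => piA (D i) * a) l (𝓝 a))
  (H3 : ∀ a b : A, Tendsto (fun i => twoAct a b (D i) - rightAct (a * b) (D i)) l (𝓝 0))

include hK H2 in
theorem tendsto_cmapR (z : (chains X (n + 1)).carrier) :
    Tendsto (fun i => cmapR X n (ContinuousLinearMap.mul ℂ A (piA (D i))) z) l (𝓝 z) := by
  refine tendsto_chain (((cmapR X n).comp (ContinuousLinearMap.mul ℂ A)).comp piA)
    (ContinuousLinearMap.id ℂ _) D K hK (fun c a => ?_) z
  have := ((ct X n c).continuous.tendsto a).comp (H2 a)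
  refine this.congr (fun i => ?_)
  simp

/-- The operator-valued map `D ↦ λ_{π D} - (R L_D - s_D t)`. -/
noncomputable def phiOp : PT A A →L[ℂ]
    ((chains X (n + 1)).carrier →L[ℂ] (chains X (n + 1)).carrier) :=
  (chains X (n + 1)).lact.comp piA - (RLOp X (n + 1) - rcomp (sOp X n) (tOp X n))

theorem phiOp_apply (D : PT A A) (z : (chains X (n + 1)).carrier) :
    phiOp X n D z = (chains X (n + 1)).lact (piA D) z -
      (RLOp X (n + 1) D z - sOp X n D (tOp X n z)) := by
  simp [phiOp]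

theorem err1 (D : PT A A) (a b : A) (c : (chains X n).carrier) :
    RLOp X (n + 1) D ((chains X (n + 1)).lact b (ct X n c a)) -
      sOp X n D (tOp X n ((chains X (n + 1)).lact b (ct X n c a))) =
    sOp X n (twoAct a b D - rightAct (a * b) D) c := by
  rw [lact_ct, tOp_ct]
  refine PT_ext_apply ((RLOp X (n + 1)).flip (ct X n ((chains X n).lact b c) a) -
    (sOp X n).flip ((chains X n).lact a ((chains X n).lact b c)))
    (((sOp X n).flip c).comp ((mapL A A A (ContinuousLinearMap.mul ℂ A a)).comp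
      (mapR A A A ((ContinuousLinearMap.mul ℂ A).flip b)) -
      mapR A A A ((ContinuousLinearMap.mul ℂ A).flip (a * b)))) (fun p q => ?_) D
  simp [(chains X n).lact_mul]

include hK H2 H3 in
theorem tendsto_phi (z : (chains X (n + 1)).carrier) (hz : z ∈ YSub X (n + 1)) :
    Tendsto (fun i => phiOp X n (D i) z) l (𝓝 z) := by
  refine tendsto_of_dense (phiOp X n) (ContinuousLinearMap.id ℂ _) D K hK
    {y : (chains X (n + 1)).carrier | ∃ a c, y = (chains X (n + 1)).lact a c} ?_ z hz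
  rintro _ ⟨b, c, rfl⟩
  refine tendsto_chain (rcomp (phiOp X n) ((chains X (n + 1)).lact b))
    ((chains X (n + 1)).lact b) D K hK (fun c a => ?_) c
  simp only [rcomp_apply]
  have h1 : Tendsto (fun i => (chains X (n + 1)).lact (piA (D i))
      ((chains X (n + 1)).lact b (ct X n c a))) l
      (𝓝 ((chains X (n + 1)).lact b (ct X n c a))) := by
    have := (((chains X (n + 1)).lact.flip (ct X n c a)).continuous.tendsto b).comp (H2 b)
    refine this.congr (fun i => ?_)
    simp only [Function.comp, ContinuousLinearMap.flip_apply]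
    rw [(chains X (n + 1)).lact_mul]
  have h2 : Tendsto (fun i => sOp X n (twoAct a b (D i) - rightAct (a * b) (D i)) c) l
      (𝓝 0) := by
    have := (((sOp X n).flip c).continuous.tendsto 0).comp (H3 a b)
    rw [map_zero] at this
    exact this
  have h3 := h1.sub h2
  rw [sub_zero] at h3
  refine h3.congr (fun i => ?_)
  rw [phiOp_apply, err1]

/-- For `D = p ⊗ q`, `(c ⊗ p) ⊗ q`. -/
noncomputable def GOp (c : (chains X n).carrier) : PT A A →L[ℂ] (chains X (n + 2)).carrier :=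
  lift ((ct X (n + 1)).comp (ct X n c))

@[simp]
theorem GOp_tmul (c : (chains X n).carrier) (p q : A) :
    GOp X n c (tmul p q) = ct X (n + 1) (ct X n c p) q := by
  simp [GOp]

/-- The operator-valued map `D ↦ M_D - g_D u`. -/
noncomputable def err2Op : PT A A →L[ℂ]
    ((chains X (n + 2)).carrier →L[ℂ] (chains X (n + 2)).carrier) :=
  MOp X (n + 1) - rcomp (gOp X n) (uOp X (n + 1))

theorem err2Op_apply (D : PT A A) (z : (chains X (n + 2)).carrier) :
    err2Op X n D z = MOp X (n + 1) D z - gOp X n D (uOp X (n + 1) z) := by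
  simp [err2Op]

theorem err2 (D : PT A A) (a e : A) (c : (chains X n).carrier) :
    err2Op X n D (ct X (n + 1) (ct X n c e) a) =
    GOp X n c (twoAct e a D - rightAct (e * a) D) := by
  rw [err2Op_apply, uOp_ct, ract_ct]
  refine PT_ext_apply ((MOp X (n + 1)).flip (ct X (n + 1) (ct X n c e) a) -
    (gOp X n).flip (ct X n c (e * a)))
    ((GOp X n c).comp ((mapL A A A (ContinuousLinearMap.mul ℂ A e)).comp
      (mapR A A A ((ContinuousLinearMap.mul ℂ A).flip a)) -
      mapR A A A ((ContinuousLinearMap.mul ℂ A).flip (e * a)))) (fun p q => ?_) D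
  simp

include hK H3 in
theorem tendsto_err2 (z : (chains X (n + 2)).carrier) :
    Tendsto (fun i => err2Op X n (D i) z) l (𝓝 0) := by
  refine tendsto_chain (err2Op X n) 0 D K hK (fun c a => ?_) z
  refine tendsto_chain (rcomp (err2Op X n) ((ct X (n + 1)).flip a)) 0 D K hK (fun c e => ?_) c
  have := ((GOp X n c).continuous.tendsto 0).comp (H3 e a)
  rw [map_zero] at this
  refine this.congr (fun i => ?_)
  simp only [Function.comp, rcomp_apply, ContinuousLinearMap.flip_apply]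
  rw [err2]

theorem err3 (D : PT A A) (a u : A) (c : (chains X 0).carrier) :
    MOp X 0 D ((chains X 1).ract u (ct X 0 c a)) - VOp X (rightAct u D) (bPrime X 0 (ct X 0 c a)) =
    - VOp X (twoAct a u D - rightAct (a * u) D) c := by
  rw [ract_ct, bPrime_zero_ct]
  refine PT_ext_apply ((MOp X 0).flip (ct X 0 c (a * u)) -
    ((VOp X).flip ((chains X 0).ract a c)).comp (mapR A A A ((ContinuousLinearMap.mul ℂ A).flip u)))
    (- ((VOp X).flip c).comp ((mapL A A A (ContinuousLinearMap.mul ℂ A a)).comp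
      (mapR A A A ((ContinuousLinearMap.mul ℂ A).flip u)) -
      mapR A A A ((ContinuousLinearMap.mul ℂ A).flip (a * u)))) (fun p q => ?_) D
  simp [(chains X 0).ract_mul]

include hK H3 in
theorem tendsto_err3 (u : A) (z : (chains X 1).carrier) :
    Tendsto (fun i => MOp X 0 (D i) ((chains X 1).ract u z) -
      VOp X (rightAct u (D i)) (bPrime X 0 z)) l (𝓝 0) := by
  have := tendsto_chain (l := l) (rcomp (MOp X 0) ((chains X 1).ract u) -
    rcomp ((VOp X).comp (mapR A A A ((ContinuousLinearMap.mul ℂ A).flip u))) (bPrime X 0)) 0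
    D K hK (fun c a => ?_) z
  · simpa [rightAct] using this
  · have := (((VOp X).flip c).continuous.tendsto 0).comp (H3 a u)
    rw [map_zero] at this
    have := this.neg
    rw [neg_zero] at this
    refine this.congr (fun i => ?_)
    have h3 := err3 X (D i) a u c
    simp only [Function.comp, ContinuousLinearMap.flip_apply]
    rw [← h3]
    simp [rightAct]

end main

section lifting

variable {E₂ E₁ E₀ : Type} [NormedAddCommGroup E₂] [NormedSpace ℂ E₂] [CompleteSpace E₂]
  [NormedAddCommGroup E₁] [NormedSpace ℂ E₁] [NormedAddCommGroup E₀] [NormedSpace ℂ E₀]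

/-- If every cycle is approximately a boundary, with control of the norms, then every cycle is
a boundary. -/
theorem exact_of_approx (d₁ : E₂ →L[ℂ] E₁) (d₀ : E₁ →L[ℂ] E₀) (hdd : ∀ w, d₀ (d₁ w) = 0) (C : ℝ)
    (hC : 0 ≤ C)
    (h : ∀ z, d₀ z = 0 → ∀ ε : ℝ, 0 < ε → ∃ w, ‖w‖ ≤ C * ‖z‖ ∧ ‖z - d₁ w‖ ≤ ε) :
    ∀ z, d₀ z = 0 → ∃ w, d₁ w = z := by
  intro z hz
  choose! W hW1 hW2 using h
  -- the sequence of remainders
  let f : ℕ → E₁ → E₁ := fun k y => y - d₁ (W y ((1 / 2 : ℝ) ^ k))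
  let s : ℕ → E₁ := fun k => Nat.rec z (fun k y => f k y) k
  have hs0 : s 0 = z := rfl
  have hs1 : ∀ k, s (k + 1) = s k - d₁ (W (s k) ((1 / 2 : ℝ) ^ k)) := fun k => rfl
  have hcyc : ∀ k, d₀ (s k) = 0 := by
    intro k
    induction k with
    | zero => exact hz
    | succ k ih => rw [hs1, map_sub, hdd, ih, sub_zero]
  have hnorm : ∀ k, ‖s (k + 1)‖ ≤ (1 / 2 : ℝ) ^ k := by
    intro k
    rw [hs1]
    exact hW2 (s k) (hcyc k) _ (by positivity)
  let w : ℕ → E₂ := fun k => W (s k) ((1 / 2 : ℝ) ^ k)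
  have hw : ∀ k, ‖w (k + 1)‖ ≤ C * (1 / 2 : ℝ) ^ k := fun k =>
    (hW1 (s (k + 1)) (hcyc (k + 1)) _ (by positivity)).trans
      (mul_le_mul_of_nonneg_left (hnorm k) hC)
  have hsum1 : Summable (fun k => w (k + 1)) := by
    refine Summable.of_norm_bounded (g := fun k => C * (1 / 2 : ℝ) ^ k) ?_ hw
    exact (summable_geometric_of_lt_one (by norm_num) (by norm_num)).mul_left C
  have hsum : Summable w := (summable_nat_add_iff 1).1 hsum1
  refine ⟨∑' k, w k, ?_⟩
  have h1 : Tendsto (fun N => ∑ k ∈ Finset.range N, w k) atTop (𝓝 (∑' k, w k)) :=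
    hsum.hasSum.tendsto_sum_nat
  have h2 : Tendsto (fun N => d₁ (∑ k ∈ Finset.range N, w k)) atTop (𝓝 (d₁ (∑' k, w k))) :=
    (d₁.continuous.tendsto _).comp h1
  have h3 : ∀ N, d₁ (∑ k ∈ Finset.range N, w k) = z - s N := by
    intro N
    induction N with
    | zero => simp [hs0]
    | succ N ih =>
      rw [Finset.sum_range_succ, map_add, ih, hs1]
      change z - s N + d₁ (W (s N) ((1 / 2 : ℝ) ^ N)) = _
      abel
  have h4 : Tendsto s atTop (𝓝 0) := by
    rw [← tendsto_add_atTop_iff_nat 1]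
    refine squeeze_zero_norm hnorm ?_
    exact tendsto_pow_atTop_nhds_zero_of_lt_one (by norm_num) (by norm_num)
  have h5 : Tendsto (fun N => d₁ (∑ k ∈ Finset.range N, w k)) atTop (𝓝 z) := by
    have := (tendsto_const_nhds (x := z) (f := atTop (α := ℕ))).sub h4
    rw [sub_zero] at this
    exact this.congr (fun N => (h3 N).symm)
  exact tendsto_nhds_unique h2 h5

end lifting

section exactness

variable (X : BanachBimod A) (n : ℕ) {ι : Type} (l : Filter ι) [l.NeBot] (D : ι → PT A A) (K : ℝ)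
  (hK : ∀ i, ‖D i‖ ≤ K)
  (H2 : ∀ a : A, Tendsto (fun i => piA (D i) * a) l (𝓝 a))
  (H3 : ∀ a b : A, Tendsto (fun i => twoAct a b (D i) - rightAct (a * b) (D i)) l (𝓝 0))

theorem hochD_phi (D : PT A A) (z : (chains X (n + 1)).carrier) :
    z = hochD X (n + 1) ((-1 : ℂ) ^ n • sOp X (n + 1) D z) -
      (-1 : ℂ) ^ n • sOp X n D (hochD X n z) + (z - phiOp X n D z) := by
  have h := ident1 X n D z
  have h' : hochD X (n + 1) (sOp X (n + 1) D z) = sOp X n D (hochD X n z) +
      ((-1 : ℂ) ^ (n + 1) • (RLOp X (n + 1) D z - sOp X n D (tOp X n z)) +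
      (-1 : ℂ) ^ (n + 2) • (chains X (n + 1)).lact (piA D) z) := by
    rw [← h]; abel
  rw [map_smul, h', phiOp_apply, smul_add, smul_add, smul_smul, smul_smul]
  have e1 : (-1 : ℂ) ^ n * (-1 : ℂ) ^ (n + 1) = -1 := by
    rw [← pow_add]; rw [show n + (n + 1) = 2 * n + 1 by ring, pow_succ, pow_mul]; simp
  have e2 : (-1 : ℂ) ^ n * (-1 : ℂ) ^ (n + 2) = 1 := by
    rw [← pow_add]; rw [show n + (n + 2) = 2 * (n + 1) by ring, pow_mul]; simp
  rw [e1, e2]
  simp only [neg_smul, one_smul]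
  abel

include hK H2 H3 in
/-- Approximate lifting of the elements of `Y` with small boundary. -/
theorem approx_Y (y : (chains X (n + 1)).carrier) (hy : y ∈ YSub X (n + 1)) (ε : ℝ) (hε : 0 < ε) :
    ∃ w : (chains X (n + 2)).carrier, ‖w‖ ≤ ‖sOp X (n + 1)‖ * K * ‖y‖ ∧
      ‖y - hochD X (n + 1) w‖ ≤ ‖sOp X n‖ * K * ‖hochD X n y‖ + ε := by
  have h1 := (Metric.tendsto_nhds.1 (tendsto_phi X n l D K hK H2 H3 y hy)) ε hε
  obtain ⟨i, hi⟩ := h1.exists
  have hn : ‖(-1 : ℂ) ^ n‖ = 1 := by simp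
  refine ⟨(-1 : ℂ) ^ n • sOp X (n + 1) (D i) y, ?_, ?_⟩
  · rw [norm_smul, hn, one_mul]
    refine ((sOp X (n + 1)).le_opNorm₂ _ _).trans ?_
    gcongr
    exact hK i
  · have h2 := hochD_phi X n (D i) y
    have h3 : y - hochD X (n + 1) ((-1 : ℂ) ^ n • sOp X (n + 1) (D i) y) =
        - ((-1 : ℂ) ^ n • sOp X n (D i) (hochD X n y)) + (y - phiOp X n (D i) y) := by
      nth_rewrite 1 [h2]
      abel
    rw [h3]
    refine (norm_add_le _ _).trans ?_
    rw [norm_neg, norm_smul, hn, one_mul]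
    refine add_le_add ?_ ?_
    · refine ((sOp X n).le_opNorm₂ _ _).trans ?_
      gcongr
      exact hK i
    · rw [← dist_eq_norm, dist_comm]
      exact hi.le

/-- Reduction of the approximate lifting property to the approximation of cycles by boundaries
and elements of `Y`. -/
theorem exact_of_near_Y (C : ℝ) (hC : 0 ≤ C)
    (hK : ∀ i, ‖D i‖ ≤ K)
    (H2 : ∀ a : A, Tendsto (fun i => piA (D i) * a) l (𝓝 a))
    (H3 : ∀ a b : A, Tendsto (fun i => twoAct a b (D i) - rightAct (a * b) (D i)) l (𝓝 0))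
    (h : ∀ z : (chains X (n + 1)).carrier, hochD X n z = 0 → ∀ ε : ℝ, 0 < ε →
      ∃ w : (chains X (n + 2)).carrier, ∃ y ∈ YSub X (n + 1), ‖w‖ ≤ C * ‖z‖ ∧
        ‖z - hochD X (n + 1) w - y‖ ≤ ε) :
    ∀ z : (chains X (n + 1)).carrier, hochD X n z = 0 →
      ∃ w : (chains X (n + 2)).carrier, hochD X (n + 1) w = z := by
  have hne : Nonempty ι := l.nonempty_of_neBot
  have hK0 : 0 ≤ K := (norm_nonneg _).trans (hK hne.some)
  set B := ‖hochD X (n + 1)‖ with hB
  set S := ‖sOp X (n + 1)‖ * K with hS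
  set S' := ‖sOp X n‖ * K * ‖hochD X n‖ with hS'
  have hS0 : 0 ≤ S := by positivity
  have hS'0 : 0 ≤ S' := by positivity
  refine exact_of_approx (hochD X (n + 1)) (hochD X n) (hochD_hochD X n)
    (C + S * (1 + B * C + 1)) (by positivity) (fun z hz ε hε => ?_)
  by_cases hz0 : z = 0
  · exact ⟨0, by simp [hz0], by simp [hz0, hε.le]⟩
  have hzpos : 0 < ‖z‖ := norm_pos_iff.2 hz0
  set δ := min ‖z‖ (ε / (2 * (1 + S'))) with hδ
  have hδ0 : 0 < δ := by
    rw [hδ]; exact lt_min hzpos (by positivity)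
  obtain ⟨w, y, hy, hw, hzy⟩ := h z hz δ hδ0
  obtain ⟨w', hw', hyw⟩ := approx_Y X n l D K hK H2 H3 y hy (ε / 2) (by positivity)
  have hynorm : ‖y‖ ≤ (1 + B * C + 1) * ‖z‖ := by
    have e1 : y = z - hochD X (n + 1) w - (z - hochD X (n + 1) w - y) := by abel
    have e2 : ‖hochD X (n + 1) w‖ ≤ B * (C * ‖z‖) :=
      ((hochD X (n + 1)).le_opNorm w).trans (by gcongr)
    have e3 : δ ≤ ‖z‖ := min_le_left _ _
    calc ‖y‖ = ‖z - hochD X (n + 1) w - (z - hochD X (n + 1) w - y)‖ := by rw [← e1]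
      _ ≤ ‖z - hochD X (n + 1) w‖ + ‖z - hochD X (n + 1) w - y‖ := norm_sub_le _ _
      _ ≤ ‖z‖ + ‖hochD X (n + 1) w‖ + ‖z - hochD X (n + 1) w - y‖ := by
        gcongr; exact norm_sub_le _ _
      _ ≤ (1 + B * C + 1) * ‖z‖ := by nlinarith
  have hdy : ‖hochD X n y‖ ≤ ‖hochD X n‖ * δ := by
    have e1 : hochD X n y = - hochD X n (z - hochD X (n + 1) w - y) := by
      rw [map_sub, map_sub, hz, hochD_hochD]; abel
    rw [e1, norm_neg]
    refine ((hochD X n).le_opNorm _).trans ?_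
    gcongr
  refine ⟨w + w', ?_, ?_⟩
  · calc ‖w + w'‖ ≤ ‖w‖ + ‖w'‖ := norm_add_le _ _
      _ ≤ C * ‖z‖ + S * ((1 + B * C + 1) * ‖z‖) := by
        refine add_le_add hw (hw'.trans ?_)
        gcongr
      _ = (C + S * (1 + B * C + 1)) * ‖z‖ := by ring
  · have e1 : z - hochD X (n + 1) (w + w') =
        (z - hochD X (n + 1) w - y) + (y - hochD X (n + 1) w') := by
      rw [map_add]; abel
    have e2 : ‖sOp X n‖ * K * ‖hochD X n y‖ ≤ S' * δ := by
      calc ‖sOp X n‖ * K * ‖hochD X n y‖ ≤ ‖sOp X n‖ * K * (‖hochD X n‖ * δ) := by gcongr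
        _ = S' * δ := by rw [hS']; ring
    have e3 : (1 + S') * δ ≤ ε / 2 := by
      calc (1 + S') * δ ≤ (1 + S') * (ε / (2 * (1 + S'))) := by
            gcongr; exact min_le_right _ _
        _ = ε / 2 := by field_simp
    rw [e1]
    calc ‖(z - hochD X (n + 1) w - y) + (y - hochD X (n + 1) w')‖
        ≤ ‖z - hochD X (n + 1) w - y‖ + ‖y - hochD X (n + 1) w'‖ := norm_add_le _ _
      _ ≤ δ + (‖sOp X n‖ * K * ‖hochD X n y‖ + ε / 2) := add_le_add hzy hyw
      _ ≤ ε := by linarith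

theorem near_Y_succ
    (hK : ∀ i, ‖D i‖ ≤ K)
    (H2 : ∀ a : A, Tendsto (fun i => piA (D i) * a) l (𝓝 a))
    (H3 : ∀ a b : A, Tendsto (fun i => twoAct a b (D i) - rightAct (a * b) (D i)) l (𝓝 0))
    (z : (chains X (n + 2)).carrier) (hz : hochD X (n + 1) z = 0) (ε : ℝ) (hε : 0 < ε) :
      ∃ w : (chains X (n + 3)).carrier, ∃ y ∈ YSub X (n + 2), ‖w‖ ≤ ‖gOp X (n + 1)‖ * K * ‖z‖ ∧
        ‖z - hochD X (n + 2) w - y‖ ≤ ε := by
  have h1 := (Metric.tendsto_nhds.1 (tendsto_err2 X n l D K hK H3 z)) (ε / 2) (by positivity)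
  have h2 := (Metric.tendsto_nhds.1 (tendsto_cmapR X (n + 1) l D K hK H2 z)) (ε / 2)
    (by positivity)
  obtain ⟨i, hi1, hi2⟩ := (h1.and h2).exists
  have hn : ‖(-1 : ℂ) ^ n‖ = 1 := by simp
  refine ⟨(-1 : ℂ) ^ n • gOp X (n + 1) (D i) z,
    gOp X n (D i) (tOp X (n + 1) z) + sOp X (n + 1) (D i) (tOp X (n + 1) z), ?_, ?_, ?_⟩
  · exact Submodule.add_mem _ (gOp_mem_YSub X n _ _ (tOp_mem_YSub X (n + 1) z))
      (sOp_mem_YSub X (n + 1) _ _ (tOp_mem_YSub X (n + 1) z))
  · rw [norm_smul, hn, one_mul]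
    refine ((gOp X (n + 1)).le_opNorm₂ _ _).trans ?_
    gcongr
    exact hK i
  · have h := ident2 X n (D i) z
    rw [hz, map_zero, sub_zero, ← err2Op_apply] at h
    rw [map_smul, h, smul_add, smul_add, smul_smul, smul_smul, smul_smul]
    have e1 : (-1 : ℂ) ^ n * (-1 : ℂ) ^ (n + 1) = -1 := by
      rw [← pow_add]; rw [show n + (n + 1) = 2 * n + 1 by ring, pow_succ, pow_mul]; simp
    have e2 : (-1 : ℂ) ^ n * (-1 : ℂ) ^ (n + 2) = 1 := by
      rw [← pow_add]; rw [show n + (n + 2) = 2 * (n + 1) by ring, pow_mul]; simp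
    have e3 : (-1 : ℂ) ^ n * (-1 : ℂ) ^ (n + 3) = -1 := by
      rw [← pow_add]; rw [show n + (n + 3) = 2 * (n + 1) + 1 by ring, pow_succ, pow_mul]; simp
    rw [e1, e2, e3]
    simp only [neg_smul, one_smul]
    have e4 : z - (-err2Op X n (D i) z + (cmapR X (n + 1) (ContinuousLinearMap.mul ℂ A
        (piA (D i))) z - gOp X n (D i) (tOp X (n + 1) z)) +
        -sOp X (n + 1) (D i) (tOp X (n + 1) z)) -
        (gOp X n (D i) (tOp X (n + 1) z) + sOp X (n + 1) (D i) (tOp X (n + 1) z)) =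
        err2Op X n (D i) z - (cmapR X (n + 1) (ContinuousLinearMap.mul ℂ A
        (piA (D i))) z - z) := by abel
    rw [e4]
    rw [dist_eq_norm, sub_zero] at hi1
    rw [dist_eq_norm] at hi2
    refine (norm_sub_le _ _).trans ?_
    linarith

theorem near_Y_zero
    (hK : ∀ i, ‖D i‖ ≤ K)
    (H2 : ∀ a : A, Tendsto (fun i => piA (D i) * a) l (𝓝 a))
    (H3 : ∀ a b : A, Tendsto (fun i => twoAct a b (D i) - rightAct (a * b) (D i)) l (𝓝 0))
    (HR : ∀ (z : (chains X 1).carrier) (ε : ℝ), 0 < ε →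
      ∃ u : A, ‖z - (chains X 1).ract u z‖ < ε)
    (z : (chains X 1).carrier) (hz : hochD X 0 z = 0) (ε : ℝ) (hε : 0 < ε) :
      ∃ w : (chains X 2).carrier, ∃ y ∈ YSub X 1, ‖w‖ ≤ ‖gOp X 0‖ * K * ‖z‖ ∧
        ‖z - hochD X 1 w - y‖ ≤ ε := by
  have hne : Nonempty ι := l.nonempty_of_neBot
  have hK0 : 0 ≤ K := (norm_nonneg _).trans (hK hne.some)
  set B := ‖MOp X 0‖ * K + 1 with hB
  have hB0 : 0 < B := by positivity
  obtain ⟨u, hu⟩ := HR z (ε / (3 * B)) (by positivity)
  have h1 := (Metric.tendsto_nhds.1 (tendsto_err3 X l D K hK H3 u z)) (ε / 3) (by positivity)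
  have h2 := (Metric.tendsto_nhds.1 (tendsto_cmapR X 0 l D K hK H2 z)) (ε / 3)
    (by positivity)
  obtain ⟨i, hi1, hi2⟩ := (h1.and h2).exists
  have hb : bPrime X 0 z = tOp X 0 z := by
    have := hochD_eq X 0 z
    rw [hz] at this
    simp only [zero_add, pow_one, neg_smul, one_smul] at this
    exact (sub_eq_zero.1 ((sub_eq_add_neg _ _).trans this.symm))
  refine ⟨- gOp X 0 (D i) z,
    VOp X (rightAct u (D i)) (bPrime X 0 z) + sOp X 0 (D i) (tOp X 0 z), ?_, ?_, ?_⟩
  · refine Submodule.add_mem _ ?_ (sOp_mem_YSub X 0 _ _ (tOp_mem_YSub X 0 z))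
    rw [hb]
    exact VOp_mem_YSub X _ _ (tOp_mem_YSub X 0 z)
  · rw [norm_neg]
    refine ((gOp X 0).le_opNorm₂ _ _).trans ?_
    gcongr
    exact hK i
  · have h := ident3 X (D i) z
    rw [map_neg, h]
    have e4 : z - -(MOp X 0 (D i) z - cmapR X 0 (ContinuousLinearMap.mul ℂ A (piA (D i))) z +
        sOp X 0 (D i) (tOp X 0 z)) - (VOp X (rightAct u (D i)) (bPrime X 0 z) +
        sOp X 0 (D i) (tOp X 0 z)) =
        MOp X 0 (D i) (z - (chains X 1).ract u z) +
        (MOp X 0 (D i) ((chains X 1).ract u z) - VOp X (rightAct u (D i)) (bPrime X 0 z)) -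
        (cmapR X 0 (ContinuousLinearMap.mul ℂ A (piA (D i))) z - z) := by
      rw [map_sub]; abel
    rw [e4]
    rw [dist_eq_norm, sub_zero] at hi1
    rw [dist_eq_norm] at hi2
    have e5 : ‖MOp X 0 (D i) (z - (chains X 1).ract u z)‖ ≤ ε / 3 := by
      calc ‖MOp X 0 (D i) (z - (chains X 1).ract u z)‖
          ≤ ‖MOp X 0‖ * ‖D i‖ * ‖z - (chains X 1).ract u z‖ := (MOp X 0).le_opNorm₂ _ _
        _ ≤ ‖MOp X 0‖ * K * (ε / (3 * B)) := by gcongr; exact hK i
        _ ≤ B * (ε / (3 * B)) := by gcongr; rw [hB]; linarith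
        _ = ε / 3 := by field_simp
    refine (norm_sub_le _ _).trans ?_
    have := norm_add_le (MOp X 0 (D i) (z - (chains X 1).ract u z))
      (MOp X 0 (D i) ((chains X 1).ract u z) - VOp X (rightAct u (D i)) (bPrime X 0 z))
    linarith

/-- **General theorem.** If `A ⊗ A` has a bounded net `D i` such that `π (D i) a → a`,
`a · D i · b - D i · (a b) → 0`, and if the right multiplications approximate the identity on each
element of `X ⊗ A`, for every `X`, then the Hochschild homology groups `Hₙ₊₁(A, X)` vanish. -/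
theorem hoch_exact
    (hK : ∀ i, ‖D i‖ ≤ K)
    (H2 : ∀ a : A, Tendsto (fun i => piA (D i) * a) l (𝓝 a))
    (H3 : ∀ a b : A, Tendsto (fun i => twoAct a b (D i) - rightAct (a * b) (D i)) l (𝓝 0))
    (HR : ∀ (z : (chains X 1).carrier) (ε : ℝ), 0 < ε →
      ∃ u : A, ‖z - (chains X 1).ract u z‖ < ε) (n : ℕ) (z : (chains X (n + 1)).carrier)
    (hz : hochD X n z = 0) :
      ∃ w : (chains X (n + 2)).carrier, hochD X (n + 1) w = z := by
  have hne : Nonempty ι := l.nonempty_of_neBot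
  have hK0 : 0 ≤ K := (norm_nonneg _).trans (hK hne.some)
  cases n with
  | zero =>
    exact exact_of_near_Y X 0 l D K (‖gOp X 0‖ * K) (by positivity) hK H2 H3
      (near_Y_zero X l D K hK H2 H3 HR) z hz
  | succ n =>
    exact exact_of_near_Y X (n + 1) l D K (‖gOp X (n + 1)‖ * K) (by positivity) hK H2 H3
      (near_Y_succ X n l D K hK H2 H3) z hz

end exactness

end Pool.Agent.Hoch
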