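import Pool.Agent.Hoch.Complex

/-!
# Operators on Hochschild chains attached to an element of `A ⊗ A`
-/

open scoped TensorProduct

namespace Pool.Agent.Hoch

section compBil

variable {A B U V W : Type} [NormedAddCommGroup A] [NormedSpace ℂ A]
  [NormedAddCommGroup B] [NormedSpace ℂ B]
  [NormedAddCommGroup U] [NormedSpace ℂ U] [NormedAddCommGroup V] [NormedSpace ℂ V]
  [NormedAddCommGroup W] [NormedSpace ℂ W]

/-- `(p, q) ↦ f p ∘ g q`. -/
noncomputable def compBil (f : A →L[ℂ] V →L[ℂ] W) (g : B →L[ℂ] U →L[ℂ] V) :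
    A →L[ℂ] B →L[ℂ] (U →L[ℂ] W) :=
  ((ContinuousLinearMap.compL ℂ B (U →L[ℂ] V) (U →L[ℂ] W)).flip g).comp
    ((ContinuousLinearMap.compL ℂ U V W).comp f)

@[simp]
theorem compBil_apply (f : A →L[ℂ] V →L[ℂ] W) (g : B →L[ℂ] U →L[ℂ] V) (p : A) (q : B) (u : U) :
    compBil f g p q u = f p (g q u) := by
  simp [compBil]

end compBil

variable {A : Type} [NonUnitalNormedRing A] [NormedSpace ℂ A] [IsScalarTower ℂ A A]
  [SMulCommClass ℂ A A] [CompleteSpace A]

section ops

variable (X : BanachBimod A) (n m : ℕ)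

/-- `f ↦ (c ⊗ a ↦ f c ⊗ a)`. -/
noncomputable def cmapL : ((chains X n).carrier →L[ℂ] (chains X m).carrier) →L[ℂ]
    ((chains X (n + 1)).carrier →L[ℂ] (chains X (m + 1)).carrier) :=
  mapL (chains X n).carrier (chains X m).carrier A

/-- `T ↦ (c ⊗ a ↦ c ⊗ T a)`. -/
noncomputable def cmapR : (A →L[ℂ] A) →L[ℂ]
    ((chains X (n + 1)).carrier →L[ℂ] (chains X (n + 1)).carrier) :=
  mapR (chains X n).carrier A A

variable {n m} in
@[simp]
theorem cmapL_ct (f : (chains X n).carrier →L[ℂ] (chains X m).carrier) (c : (chains X n).carrier)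
    (a : A) : cmapL X n m f (ct X n c a) = ct X m (f c) a :=
  mapL_tmul (X := (chains X n).carrier) (X' := (chains X m).carrier) (Y := A) _ _ _

variable {n} in
@[simp]
theorem cmapR_ct (T : A →L[ℂ] A) (c : (chains X n).carrier)
    (a : A) : cmapR X n T (ct X n c a) = ct X n c (T a) :=
  mapR_tmul (X := (chains X n).carrier) (Y := A) (Y' := A) _ _ _

/-- the operator `c ⊗ a ↦ a · c` -/
noncomputable def tOp : (chains X (n + 1)).carrier →L[ℂ] (chains X n).carrier :=
  clift X n (chains X n).lact.flip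

/-- the operator `c ⊗ a ↦ c · a` -/
noncomputable def uOp : (chains X (n + 1)).carrier →L[ℂ] (chains X n).carrier :=
  clift X n (chains X n).ract.flip

@[simp]
theorem tOp_ct (c : (chains X n).carrier) (a : A) : tOp X n (ct X n c a) = (chains X n).lact a c := by
  simp [tOp]

@[simp]
theorem uOp_ct (c : (chains X n).carrier) (a : A) : uOp X n (ct X n c a) = (chains X n).ract a c := by
  simp [uOp]

/-- for `D = p ⊗ q`: `c ↦ (q · c) ⊗ p` -/
noncomputable def sOp : PT A A →L[ℂ] ((chains X n).carrier →L[ℂ] (chains X (n + 1)).carrier) :=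
  lift (compBil (ct X n).flip (chains X n).lact)

/-- for `D = p ⊗ q`: `c ⊗ a ↦ (c ⊗ p) ⊗ q a` -/
noncomputable def gOp : PT A A →L[ℂ]
    ((chains X (n + 1)).carrier →L[ℂ] (chains X (n + 2)).carrier) :=
  lift (compBil ((cmapL X n (n + 1)).comp (ct X n).flip)
    ((cmapR X n).comp (ContinuousLinearMap.mul ℂ A)))

/-- for `D = p ⊗ q`: `c ⊗ a ↦ (c · p) ⊗ q a` -/
noncomputable def MOp : PT A A →L[ℂ]
    ((chains X (n + 1)).carrier →L[ℂ] (chains X (n + 1)).carrier) :=
  lift (compBil ((cmapL X n n).comp (chains X n).ract)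
    ((cmapR X n).comp (ContinuousLinearMap.mul ℂ A)))

/-- for `D = p ⊗ q`: `c ↦ q · c · p` -/
noncomputable def RLOp : PT A A →L[ℂ] ((chains X n).carrier →L[ℂ] (chains X n).carrier) :=
  lift (compBil (chains X n).ract (chains X n).lact)

/-- multiplication `A ⊗ A → A` -/
noncomputable def piA : PT A A →L[ℂ] A := lift (ContinuousLinearMap.mul ℂ A)

@[simp]
theorem sOp_tmul (p q : A) (c : (chains X n).carrier) :
    sOp X n (tmul p q) c = ct X n ((chains X n).lact q c) p := by
  simp [sOp]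

@[simp]
theorem gOp_tmul (p q : A) (c : (chains X n).carrier) (a : A) :
    gOp X n (tmul p q) (ct X n c a) = ct X (n + 1) (ct X n c p) (q * a) := by
  simp [gOp]

@[simp]
theorem MOp_tmul (p q : A) (c : (chains X n).carrier) (a : A) :
    MOp X n (tmul p q) (ct X n c a) = ct X n ((chains X n).ract p c) (q * a) := by
  simp [MOp]

@[simp]
theorem RLOp_tmul (p q : A) (c : (chains X n).carrier) :
    RLOp X n (tmul p q) c = (chains X n).ract p ((chains X n).lact q c) := by
  simp [RLOp]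

@[simp]
theorem piA_tmul (p q : A) : piA (tmul p q) = p * q := by
  simp [piA]

/-- Two continuous linear maps out of `A ⊗ A` with values in operators agree if they agree on
elementary tensors. -/
theorem PT_ext_apply {V : Type} [NormedAddCommGroup V] [NormedSpace ℂ V]
    (f g : PT A A →L[ℂ] V) (h : ∀ p q, f (tmul p q) = g (tmul p q)) (D : PT A A) :
    f D = g D := by
  rw [clm_ext h]

end ops

section identities

variable (X : BanachBimod A) (n : ℕ)

theorem hochD_eq (z : (chains X (n + 1)).carrier) :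
    hochD X n z = bPrime X n z + (-1 : ℂ) ^ (n + 1) • tOp X n z := by
  simp [hochD, tOp]

theorem ident1_tmul (p q : A) (z : (chains X (n + 1)).carrier) :
    hochD X (n + 1) (sOp X (n + 1) (tmul p q) z) - sOp X n (tmul p q) (hochD X n z) =
      (-1 : ℂ) ^ (n + 1) • (RLOp X (n + 1) (tmul p q) z - sOp X n (tmul p q) (tOp X n z)) +
      (-1 : ℂ) ^ (n + 2) • (chains X (n + 1)).lact (p * q) z := by
  rw [sOp_tmul, hochD_ct, bPrime_succ_ct, bPrime_lact, hochD_eq, map_add, map_smul, sOp_tmul,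
    RLOp_tmul, (chains X (n + 1)).lact_mul, smul_sub]
  abel

theorem ident1 (D : PT A A) (z : (chains X (n + 1)).carrier) :
    hochD X (n + 1) (sOp X (n + 1) D z) - sOp X n D (hochD X n z) =
      (-1 : ℂ) ^ (n + 1) • (RLOp X (n + 1) D z - sOp X n D (tOp X n z)) +
      (-1 : ℂ) ^ (n + 2) • (chains X (n + 1)).lact (piA D) z := by
  refine PT_ext_apply
    ((hochD X (n + 1)).comp ((sOp X (n + 1)).flip z) - (sOp X n).flip (hochD X n z))
    ((-1 : ℂ) ^ (n + 1) • ((RLOp X (n + 1)).flip z - (sOp X n).flip (tOp X n z)) +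
      (-1 : ℂ) ^ (n + 2) • (((chains X (n + 1)).lact.flip z).comp piA)) (fun p q => ?_) D
  have := ident1_tmul X n p q z
  simpa using this

theorem ident2_tmul (p q : A) (c : (chains X (n + 1)).carrier) (a : A) :
    hochD X (n + 2) (gOp X (n + 1) (tmul p q) (ct X (n + 1) c a)) -
      gOp X n (tmul p q) (hochD X (n + 1) (ct X (n + 1) c a)) =
      (-1 : ℂ) ^ (n + 1) • (MOp X (n + 1) (tmul p q) (ct X (n + 1) c a) -
        gOp X n (tmul p q) (uOp X (n + 1) (ct X (n + 1) c a))) +
      (-1 : ℂ) ^ (n + 2) • (cmapR X (n + 1) (ContinuousLinearMap.mul ℂ A (p * q))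
        (ct X (n + 1) c a) - gOp X n (tmul p q) (tOp X (n + 1) (ct X (n + 1) c a))) +
      (-1 : ℂ) ^ (n + 3) • sOp X (n + 1) (tmul p q) (tOp X (n + 1) (ct X (n + 1) c a)) := by
  rw [gOp_tmul, hochD_ct, bPrime_succ_ct, bPrime_succ_ct, hochD_ct, bPrime_succ_ct, uOp_ct,
    tOp_ct, MOp_tmul, sOp_tmul, cmapR_ct, map_add, map_add, map_add, map_smul, map_smul, map_smul,
    gOp_tmul, ract_ct, lact_ct, (chains X (n + 1)).lact_mul, smul_sub, smul_sub, add_apply,
    smul_apply]
  simp only [ContinuousLinearMap.mul_apply', mul_assoc]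
  abel

theorem ident2 (D : PT A A) (z : (chains X (n + 2)).carrier) :
    hochD X (n + 2) (gOp X (n + 1) D z) - gOp X n D (hochD X (n + 1) z) =
      (-1 : ℂ) ^ (n + 1) • (MOp X (n + 1) D z - gOp X n D (uOp X (n + 1) z)) +
      (-1 : ℂ) ^ (n + 2) • (cmapR X (n + 1) (ContinuousLinearMap.mul ℂ A (piA D)) z -
        gOp X n D (tOp X (n + 1) z)) +
      (-1 : ℂ) ^ (n + 3) • sOp X (n + 1) D (tOp X (n + 1) z) := by
  have key : ∀ p q : A,
      (hochD X (n + 2)).comp (gOp X (n + 1) (tmul p q)) -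
        (gOp X n (tmul p q)).comp (hochD X (n + 1)) =
      (-1 : ℂ) ^ (n + 1) • (MOp X (n + 1) (tmul p q) -
        (gOp X n (tmul p q)).comp (uOp X (n + 1))) +
      (-1 : ℂ) ^ (n + 2) • (cmapR X (n + 1) (ContinuousLinearMap.mul ℂ A (p * q)) -
        (gOp X n (tmul p q)).comp (tOp X (n + 1))) +
      (-1 : ℂ) ^ (n + 3) • (sOp X (n + 1) (tmul p q)).comp (tOp X (n + 1)) := by
    intro p q
    refine chain_ext (fun c a => ?_)
    have := ident2_tmul X n p q c a
    simpa only [ContinuousLinearMap.comp_apply, sub_apply, add_apply, smul_apply] using this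
  refine PT_ext_apply
    ((hochD X (n + 2)).comp ((gOp X (n + 1)).flip z) - (gOp X n).flip (hochD X (n + 1) z))
    ((-1 : ℂ) ^ (n + 1) • ((MOp X (n + 1)).flip z - (gOp X n).flip (uOp X (n + 1) z)) +
      (-1 : ℂ) ^ (n + 2) • ((((cmapR X (n + 1)).comp (ContinuousLinearMap.mul ℂ A)).flip z).comp
        piA - (gOp X n).flip (tOp X (n + 1) z)) +
      (-1 : ℂ) ^ (n + 3) • (sOp X (n + 1)).flip (tOp X (n + 1) z)) (fun p q => ?_) D
  have := congrArg (fun f => f z) (key p q)
  simpa using this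

theorem ident3_tmul (p q : A) (c : (chains X 0).carrier) (a : A) :
    hochD X 1 (gOp X 0 (tmul p q) (ct X 0 c a)) =
      MOp X 0 (tmul p q) (ct X 0 c a) -
      cmapR X 0 (ContinuousLinearMap.mul ℂ A (p * q)) (ct X 0 c a) +
      sOp X 0 (tmul p q) (tOp X 0 (ct X 0 c a)) := by
  rw [gOp_tmul, hochD_ct, bPrime_succ_ct, bPrime_zero_ct, MOp_tmul, cmapR_ct, tOp_ct, sOp_tmul,
    ract_ct, lact_ct, (chains X 0).lact_mul]
  simp only [ContinuousLinearMap.mul_apply', mul_assoc]
  simp
  abel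

theorem ident3 (D : PT A A) (z : (chains X 1).carrier) :
    hochD X 1 (gOp X 0 D z) =
      MOp X 0 D z - cmapR X 0 (ContinuousLinearMap.mul ℂ A (piA D)) z + sOp X 0 D (tOp X 0 z) := by
  have key : ∀ p q : A,
      (hochD X 1).comp (gOp X 0 (tmul p q)) =
      MOp X 0 (tmul p q) - cmapR X 0 (ContinuousLinearMap.mul ℂ A (p * q)) +
        (sOp X 0 (tmul p q)).comp (tOp X 0) := by
    intro p q
    refine chain_ext (fun c a => ?_)
    have := ident3_tmul X p q c a
    simpa only [ContinuousLinearMap.comp_apply, sub_apply, add_apply, smul_apply] using this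
  refine PT_ext_apply
    ((hochD X 1).comp ((gOp X 0).flip z))
    ((MOp X 0).flip z - (((cmapR X 0).comp (ContinuousLinearMap.mul ℂ A)).flip z).comp
        piA + (sOp X 0).flip (tOp X 0 z)) (fun p q => ?_) D
  have := congrArg (fun f => f z) (key p q)
  simpa using this

end identities

end Pool.Agent.Hoch
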