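import Pool.Agent.Hoch.Defs

/-!
# Completed projective tensor product of two Banach spaces

`PT X Y` is the completion of the algebraic tensor product of `X` and `Y` for the projective norm.
-/

open scoped TensorProduct

namespace Pool.Agent.Hoch

section

variable (X Y : Type) [NormedAddCommGroup X] [NormedSpace ℂ X] [CompleteSpace X]
  [NormedAddCommGroup Y] [NormedSpace ℂ Y] [CompleteSpace Y]

/-- The two-element family of spaces `(X, Y)`, indexed by `Bool`. -/
abbrev pairFam (b : Bool) : Type := (Ban.pair ⟨X⟩ ⟨Y⟩ b).carrier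

/-- The completed projective tensor product of the Banach spaces `X` and `Y`. -/
def PT : Type := (Ban.pt ⟨X⟩ ⟨Y⟩).carrier

noncomputable instance : NormedAddCommGroup (PT X Y) := (Ban.pt ⟨X⟩ ⟨Y⟩).grp

noncomputable instance : NormedSpace ℂ (PT X Y) := (Ban.pt ⟨X⟩ ⟨Y⟩).spc

instance : CompleteSpace (PT X Y) := (Ban.pt ⟨X⟩ ⟨Y⟩).cpl

end

section

variable {X Y V W : Type} [NormedAddCommGroup X] [NormedSpace ℂ X] [CompleteSpace X]
  [NormedAddCommGroup Y] [NormedSpace ℂ Y] [CompleteSpace Y]
  [NormedAddCommGroup V] [NormedSpace ℂ V]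
  [NormedAddCommGroup W] [NormedSpace ℂ W]

/-- The pair `(x, y)` as a point of the product of the family `pairFam X Y`. -/
def pairPt (x : X) (y : Y) : ∀ b, pairFam X Y b := Ban.pairPt (V := ⟨X⟩) (W := ⟨Y⟩) x y

theorem pairPt_surj (m : ∀ b, pairFam X Y b) :
    m = pairPt (X := X) (Y := Y) (m false) (m true) := by
  funext b; cases b <;> rfl

/-- A bounded bilinear map, as a bounded multilinear map on the family `pairFam X Y`. -/
noncomputable def toMulti (B : X →L[ℂ] Y →L[ℂ] V) :
    ContinuousMultilinearMap ℂ (pairFam X Y) V :=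
  MultilinearMap.mkContinuous
    { toFun := fun m => B (m false) (m true)
      map_update_add' := by
        intro _ m b x y
        cases b
        · simp only [ne_eq, reduceCtorEq, not_false_eq_true, Function.update_self,
            Function.update_of_ne]
          have h := (B.map_add (x : X) (y : X))
          exact congrArg (fun f => f (m true)) h
        · simp only [ne_eq, reduceCtorEq, not_false_eq_true, Function.update_self,
            Function.update_of_ne]
          exact (B (m false)).map_add (x : Y) (y : Y)
      map_update_smul' := by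
        intro _ m b c x
        cases b
        · simp only [ne_eq, reduceCtorEq, not_false_eq_true, Function.update_self,
            Function.update_of_ne]
          have h := (B.map_smul c (x : X))
          exact congrArg (fun f => f (m true)) h
        · simp only [ne_eq, reduceCtorEq, not_false_eq_true, Function.update_self,
            Function.update_of_ne]
          exact (B (m false)).map_smul c (x : Y) }
    ‖B‖ (by
      intro m
      rw [Fintype.prod_bool]
      have := B.le_opNorm₂ (m false) (m true)
      calc ‖B (m false) (m true)‖ ≤ ‖B‖ * ‖(m false : X)‖ * ‖(m true : Y)‖ := this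
        _ = ‖B‖ * (‖m true‖ * ‖m false‖) := by ring)

theorem toMulti_apply (B : X →L[ℂ] Y →L[ℂ] V) (m : ∀ b, pairFam X Y b) :
    toMulti B m = B (m false) (m true) := rfl

theorem norm_toMulti_le (B : X →L[ℂ] Y →L[ℂ] V) : ‖toMulti B‖ ≤ ‖B‖ :=
  MultilinearMap.mkContinuous_norm_le _ (norm_nonneg B) _

theorem tprodL_norm_le : ‖(PiTensorProduct.tprodL ℂ :
    ContinuousMultilinearMap ℂ (pairFam X Y) (⨂[ℂ] b : Bool, pairFam X Y b))‖ ≤ 1 := by
  refine ContinuousMultilinearMap.opNorm_le_bound zero_le_one (fun m => ?_)
  rw [one_mul]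
  have := PiTensorProduct.projectiveSeminorm_tprod_le (𝕜 := ℂ) m
  simpa using this

theorem update_false (x z : X) (y : Y) :
    Function.update (pairPt x y) false z = pairPt z y := by
  funext b; cases b <;> rfl

theorem update_true (x : X) (y z : Y) :
    Function.update (pairPt x y) true z = pairPt x z := by
  funext b; cases b <;> rfl

section multi

variable {U : Type} [SeminormedAddCommGroup U] [NormedSpace ℂ U]
  (M : ContinuousMultilinearMap ℂ (pairFam X Y) U)

theorem multi_add_left (x x' : X) (y : Y) :
    M (pairPt (x + x') y) = M (pairPt x y) + M (pairPt x' y) := by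
  have h := M.map_update_add (pairPt x y) false x x'
  exact (congrArg M (update_false x (x + x') y)).symm.trans (h.trans (congrArg₂ (· + ·)
    (congrArg M (update_false x x y)) (congrArg M (update_false x x' y))))

theorem multi_smul_left (c : ℂ) (x : X) (y : Y) :
    M (pairPt (c • x) y) = c • M (pairPt x y) := by
  have h := M.map_update_smul (pairPt x y) false c x
  exact (congrArg M (update_false x (c • x) y)).symm.trans (h.trans
    (congrArg (c • ·) (congrArg M (update_false x x y))))

theorem multi_add_right (x : X) (y y' : Y) :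
    M (pairPt x (y + y')) = M (pairPt x y) + M (pairPt x y') := by
  have h := M.map_update_add (pairPt x y) true y y'
  exact (congrArg M (update_true x y (y + y'))).symm.trans (h.trans (congrArg₂ (· + ·)
    (congrArg M (update_true x y y)) (congrArg M (update_true x y y'))))

theorem multi_smul_right (c : ℂ) (x : X) (y : Y) :
    M (pairPt x (c • y)) = c • M (pairPt x y) := by
  have h := M.map_update_smul (pairPt x y) true c y
  exact (congrArg M (update_true x y (c • y))).symm.trans (h.trans
    (congrArg (c • ·) (congrArg M (update_true x y y))))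

theorem multi_norm_le (x : X) (y : Y) : ‖M (pairPt x y)‖ ≤ ‖M‖ * ‖x‖ * ‖y‖ := by
  have h := M.le_opNorm (pairPt x y)
  rw [Fintype.prod_bool] at h
  calc ‖M (pairPt x y)‖ ≤ ‖M‖ * (‖y‖ * ‖x‖) := h
    _ = ‖M‖ * ‖x‖ * ‖y‖ := by ring

end multi

variable (X Y) in
/-- The canonical map from the algebraic tensor product to the completed one. -/
noncomputable def inc : (⨂[ℂ] b : Bool, pairFam X Y b) →ₗ[ℂ] PT X Y where
  toFun t := (t : UniformSpace.Completion (⨂[ℂ] b : Bool, pairFam X Y b))
  map_add' := UniformSpace.Completion.coe_add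
  map_smul' := UniformSpace.Completion.coe_smul

variable (X Y) in
theorem norm_inc (t : ⨂[ℂ] b : Bool, pairFam X Y b) : ‖inc X Y t‖ = ‖t‖ :=
  UniformSpace.Completion.norm_coe t

theorem inc_induction {p : PT X Y → Prop} (hp : IsClosed {z | p z})
    (h : ∀ t, p (inc X Y t)) (z : PT X Y) : p z :=
  UniformSpace.Completion.induction_on (α := ⨂[ℂ] b : Bool, pairFam X Y b) (p := p) z hp h

/-- The elementary tensor `x ⊗ y`, as an element of the completed tensor product. -/
noncomputable def tmul : X →L[ℂ] Y →L[ℂ] PT X Y :=
  LinearMap.mkContinuous₂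
    (LinearMap.mk₂ ℂ (fun (x : X) (y : Y) => inc X Y (PiTensorProduct.tprodL ℂ (pairPt x y)))
      (by
        intro x x' y
        rw [← map_add]
        exact congrArg _ (multi_add_left _ x x' y))
      (by
        intro c x y
        rw [← map_smul]
        exact congrArg _ (multi_smul_left _ c x y))
      (by
        intro x y y'
        rw [← map_add]
        exact congrArg _ (multi_add_right _ x y y'))
      (by
        intro c x y
        rw [← map_smul]
        exact congrArg _ (multi_smul_right _ c x y)))
    1 (by
      intro x y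
      refine (norm_inc X Y _).trans_le ((multi_norm_le _ x y).trans ?_)
      gcongr
      exact tprodL_norm_le)

theorem tmul_eq (x : X) (y : Y) :
    tmul x y = inc X Y (PiTensorProduct.tprod ℂ (pairPt x y)) := by
  change inc X Y (PiTensorProduct.tprodL ℂ (pairPt x y)) = _
  simp

theorem tmul_eq_tm (x : X) (y : Y) :
    tmul x y = Ban.tm (V := ⟨X⟩) (W := ⟨Y⟩) x y :=
  tmul_eq x y

theorem norm_tmul_le (x : X) (y : Y) : ‖tmul x y‖ ≤ ‖x‖ * ‖y‖ := by
  rw [tmul_eq, norm_inc]
  have h := PiTensorProduct.projectiveSeminorm_tprod_le (𝕜 := ℂ) (pairPt x y)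
  rw [Fintype.prod_bool] at h
  calc _ ≤ ‖y‖ * ‖x‖ := h
    _ = ‖x‖ * ‖y‖ := mul_comm _ _

/-- The continuous linear map on the completed tensor product determined by a bounded bilinear
map. -/
noncomputable def lift [CompleteSpace V] (B : X →L[ℂ] Y →L[ℂ] V) : PT X Y →L[ℂ] V :=
  (PiTensorProduct.liftIsometry ℂ (pairFam X Y) V (toMulti B)).extend
    (UniformSpace.Completion.toComplL (𝕜 := ℂ) (E := ⨂[ℂ] b : Bool, pairFam X Y b))

theorem lift_inc [CompleteSpace V] (B : X →L[ℂ] Y →L[ℂ] V)
    (t : ⨂[ℂ] b : Bool, pairFam X Y b) :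
    lift B (inc X Y t) =
      PiTensorProduct.liftIsometry ℂ (pairFam X Y) V (toMulti B) t :=
  ContinuousLinearMap.extend_eq
    (PiTensorProduct.liftIsometry ℂ (pairFam X Y) V (toMulti B))
    (e := UniformSpace.Completion.toComplL (𝕜 := ℂ) (E := ⨂[ℂ] b : Bool, pairFam X Y b))
    UniformSpace.Completion.denseRange_coe
    (UniformSpace.Completion.isUniformInducing_coe _) t

@[simp]
theorem lift_tmul [CompleteSpace V] (B : X →L[ℂ] Y →L[ℂ] V) (x : X) (y : Y) :
    lift B (tmul x y) = B x y := by
  rw [tmul_eq, lift_inc]
  simp [toMulti_apply]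
  rfl

theorem norm_lift_le [CompleteSpace V] (B : X →L[ℂ] Y →L[ℂ] V) : ‖lift B‖ ≤ ‖B‖ := by
  refine ContinuousLinearMap.opNorm_le_bound _ (norm_nonneg B) (fun z => ?_)
  refine inc_induction (p := fun z => ‖lift B z‖ ≤ ‖B‖ * ‖z‖) ?_ ?_ z
  · exact isClosed_le ((lift B).continuous.norm) (continuous_const.mul continuous_norm)
  · intro t
    rw [lift_inc]
    have h1 := (PiTensorProduct.liftIsometry ℂ (pairFam X Y) V (toMulti B)).le_opNorm t
    rw [LinearIsometryEquiv.norm_map] at h1
    rw [norm_inc]
    exact h1.trans (mul_le_mul_of_nonneg_right (norm_toMulti_le B) (norm_nonneg t))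

/-- Finite sums of elementary tensors are dense. -/
theorem dense_span : (Submodule.span ℂ {t : PT X Y | ∃ x y, t = tmul x y}).topologicalClosure
    = ⊤ := by
  rw [Submodule.eq_top_iff']
  have key : ∀ t : ⨂[ℂ] b : Bool, pairFam X Y b, inc X Y t ∈
      (Submodule.span ℂ {t : PT X Y | ∃ x y, t = tmul x y}) := by
    intro t
    induction t using PiTensorProduct.induction_on with
    | smul_tprod r m =>
      rw [map_smul]
      refine Submodule.smul_mem _ _ (Submodule.subset_span ⟨m false, m true, ?_⟩)
      exact (congrArg (fun m => inc X Y (PiTensorProduct.tprod ℂ m)) (pairPt_surj m)).trans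
        (tmul_eq (X := X) (Y := Y) (m false) (m true)).symm
    | add a b ha hb =>
      rw [map_add]
      exact Submodule.add_mem _ ha hb
  intro z
  have hcl : IsClosed ((Submodule.span ℂ {t : PT X Y | ∃ x y, t = tmul x y}).topologicalClosure :
    Set (PT X Y)) := Submodule.isClosed_topologicalClosure _
  exact inc_induction (p := fun z => z ∈
      ((Submodule.span ℂ {t : PT X Y | ∃ x y, t = tmul x y}).topologicalClosure : Set (PT X Y)))
    hcl (fun t => Submodule.le_topologicalClosure _ (key t)) z

/-- Two continuous linear maps which agree on elementary tensors are equal. -/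
theorem clm_ext {f g : PT X Y →L[ℂ] V} (h : ∀ x y, f (tmul x y) = g (tmul x y)) : f = g := by
  refine ContinuousLinearMap.ext_on (s := {t : PT X Y | ∃ x y, t = tmul x y}) ?_ ?_
  · have := dense_span (X := X) (Y := Y)
    rw [← Submodule.dense_iff_topologicalClosure_eq_top] at this
    exact this
  · rintro _ ⟨x, y, rfl⟩
    exact h x y

end

end Pool.Agent.Hoch
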